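import Mathlib
import Pool.Agent.W218.HF.Mom

set_option autoImplicit false

/-! Moments of `n / φ(n)` over the values of functions with few zeros modulo primes. -/

namespace Pool.Agent.W218.LF

open Finset Pool.Agent.Erdos456 Pool.Agent.Erdos456.Mert Pool.Agent.W218.HF

lemma pow_factor (m : ℕ) {p : ℕ} (hp : p.Prime) :
    ((1 - (p : ℝ)⁻¹)⁻¹) ^ m ≤ 1 + 2 ^ (m + 1) / (p : ℝ) := by
  have hp2 : (2 : ℝ) ≤ p := by exact_mod_cast hp.two_le
  have h1 : (1 - (p : ℝ)⁻¹)⁻¹ = 1 + 1 / ((p : ℝ) - 1) := by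
    have : (p : ℝ) - 1 ≠ 0 := by
      have : (0 : ℝ) < (p : ℝ) - 1 := by linarith
      exact this.ne'
    have h2 : 1 - (p : ℝ)⁻¹ = ((p : ℝ) - 1) / p := by field_simp
    rw [h2, inv_div]
    field_simp
    ring
  rw [h1]
  set u : ℝ := 1 / ((p : ℝ) - 1) with hu
  have hu0 : 0 ≤ u := by
    rw [hu]; exact one_div_nonneg.2 (by linarith)
  have hu1 : u ≤ 1 := by
    rw [hu, div_le_one (by linarith)]; linarith
  have hu2 : u ≤ 2 / p := by
    rw [hu, div_le_div_iff₀ (by linarith) (by linarith)]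
    linarith
  have h3 : (1 + u) ^ m ≤ 1 + (2 ^ m - 1) * u := by
    induction m with
    | zero => simp
    | succ m ih =>
      have h2m : (1 : ℝ) ≤ 2 ^ m := one_le_pow₀ (by norm_num)
      calc (1 + u) ^ (m + 1) = (1 + u) ^ m * (1 + u) := by ring
        _ ≤ (1 + (2 ^ m - 1) * u) * (1 + u) := mul_le_mul_of_nonneg_right ih (by linarith)
        _ = 1 + 2 ^ m * u + (2 ^ m - 1) * (u * u) := by ring
        _ ≤ 1 + 2 ^ m * u + (2 ^ m - 1) * (u * 1) := by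
            have := mul_le_mul_of_nonneg_left hu1 hu0
            have := mul_le_mul_of_nonneg_left this (show (0 : ℝ) ≤ 2 ^ m - 1 by linarith)
            linarith
        _ = _ := by ring
  have h2m : (1 : ℝ) ≤ 2 ^ m := one_le_pow₀ (by norm_num)
  calc (1 + u) ^ m ≤ 1 + (2 ^ m - 1) * u := h3
    _ ≤ 1 + 2 ^ m * u := by
        have := mul_le_mul_of_nonneg_right (show (2 : ℝ) ^ m - 1 ≤ 2 ^ m by linarith) hu0
        linarith
    _ ≤ 1 + 2 ^ m * (2 / p) := by gcongr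
    _ = _ := by rw [pow_succ]; ring

lemma prod_mertens_gen (h : ℕ) : ∃ C : ℝ, 0 < C ∧ ∀ X : ℕ, 1 ≤ X →
    ∏ p ∈ PP X, (1 + (h : ℝ) / (p : ℝ)) ≤ C * X := by
  obtain ⟨C, hC⟩ := mertens_inv
  refine ⟨Real.exp (h * C) * ((h : ℝ) + 1) ^ h * 3, by positivity, ?_⟩
  intro X hX
  set N := max X 3 with hN
  have hN3 : 3 ≤ N := le_max_right _ _
  have hNr : (3 : ℝ) ≤ N := by exact_mod_cast hN3
  have hNX : (N : ℝ) ≤ 3 * X := by
    have : N ≤ 3 * X := by omega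
    exact_mod_cast this
  have h0 := hC N hN3
  have hl1 : 1 ≤ Real.log N := by
    rw [Real.le_log_iff_exp_le (by linarith)]
    have := Real.exp_one_lt_d9
    linarith
  have hh0 : (0 : ℝ) ≤ h := Nat.cast_nonneg h
  have h1 : ∏ p ∈ PP X, (1 + (h : ℝ) / (p : ℝ)) ≤ Real.exp (∑ p ∈ PP X, (h : ℝ) / (p : ℝ)) :=
    prod_exp_le _ _ fun p _ => by positivity
  have h2 : ∑ p ∈ PP X, (h : ℝ) / (p : ℝ) ≤ h * (Real.log (Real.log N) + C) := by
    have : ∑ p ∈ PP X, (h : ℝ) / (p : ℝ) ≤ ∑ p ∈ PP N, (h : ℝ) / (p : ℝ) := by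
      apply sum_le_sum_of_subset_of_nonneg _ fun p _ _ => by positivity
      intro p hp
      simp only [PP, mem_filter, mem_Icc] at hp ⊢
      exact ⟨⟨hp.1.1, hp.1.2.trans (le_max_left _ _)⟩, hp.2⟩
    have e : ∑ p ∈ PP N, (h : ℝ) / (p : ℝ) = h * ∑ p ∈ PP N, (1 : ℝ) / p := by
      rw [mul_sum]; apply sum_congr rfl; intro p _; ring
    rw [e] at this
    have h3 := (abs_le.1 h0).2
    refine this.trans (mul_le_mul_of_nonneg_left (by linarith) hh0)
  have h3 : Real.exp (∑ p ∈ PP X, (h : ℝ) / (p : ℝ)) ≤ Real.exp (h * C) * (Real.log N) ^ h := by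
    calc Real.exp (∑ p ∈ PP X, (h : ℝ) / (p : ℝ)) ≤ Real.exp (h * (Real.log (Real.log N) + C)) :=
          Real.exp_le_exp.2 h2
      _ = Real.exp (h * C) * Real.exp ((h : ℕ) * Real.log (Real.log N)) := by
          rw [← Real.exp_add]; congr 1; ring
      _ = _ := by rw [Real.exp_nat_mul (Real.log (Real.log N)) h, Real.exp_log (by linarith)]
  have h4 : (Real.log N) ^ h ≤ ((h : ℝ) + 1) ^ h * N := by
    have hpos : (0 : ℝ) < 1 / ((h : ℝ) + 1) := by positivity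
    have h5 := Real.log_le_rpow_div (x := (N : ℝ)) (by linarith) hpos
    have h6 : Real.log N ≤ ((h : ℝ) + 1) * (N : ℝ) ^ (1 / ((h : ℝ) + 1)) := by
      calc Real.log N ≤ (N : ℝ) ^ (1 / ((h : ℝ) + 1)) / (1 / ((h : ℝ) + 1)) := h5
        _ = _ := by field_simp
    have h7 : ((N : ℝ) ^ (1 / ((h : ℝ) + 1))) ^ h ≤ N := by
      rw [← Real.rpow_natCast ((N : ℝ) ^ (1 / ((h : ℝ) + 1))) h, ← Real.rpow_mul (by linarith)]
      calc (N : ℝ) ^ (1 / ((h : ℝ) + 1) * (h : ℝ)) ≤ (N : ℝ) ^ (1 : ℝ) := by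
            apply Real.rpow_le_rpow_of_exponent_le (by linarith)
            rw [one_div, inv_mul_le_iff₀ (by positivity)]
            linarith
        _ = N := Real.rpow_one _
    calc (Real.log N) ^ h ≤ (((h : ℝ) + 1) * (N : ℝ) ^ (1 / ((h : ℝ) + 1))) ^ h :=
          pow_le_pow_left₀ (by linarith) h6 _
      _ = ((h : ℝ) + 1) ^ h * ((N : ℝ) ^ (1 / ((h : ℝ) + 1))) ^ h := by rw [mul_pow]
      _ ≤ ((h : ℝ) + 1) ^ h * N := by gcongr
  calc ∏ p ∈ PP X, (1 + (h : ℝ) / (p : ℝ)) ≤ Real.exp (h * C) * (Real.log N) ^ h := h1.trans h3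
    _ ≤ Real.exp (h * C) * (((h : ℝ) + 1) ^ h * N) := by gcongr
    _ ≤ Real.exp (h * C) * (((h : ℝ) + 1) ^ h * (3 * X)) := by gcongr
    _ = _ := by ring

/-- the number of `t ≤ X` with `F t` divisible by all primes of `S` -/
lemma count_dvd_gen {X ℓ : ℕ} {F : ℕ → ℤ} (S : Finset ℕ) (hS : ∀ p ∈ S, p.Prime)
    (hF : ∀ p ∈ S, ∃ Z ⊆ range p, Z.card ≤ ℓ ∧ ∀ t, p ∣ (F t).natAbs → t % p ∈ Z) :
    ((((Icc 1 X).filter (fun t : ℕ => ∀ p ∈ S, p ∣ (F t).natAbs)).card : ℕ) : ℝ) ≤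
      (ℓ : ℝ) ^ S.card * ((X : ℝ) * ∏ p ∈ S, (1 / (p : ℝ)) + 1) := by
  classical
  choose! Z hZ1 hZ2 hZ3 using hF
  set A := (Icc 1 X).filter (fun t : ℕ => ∀ p ∈ S, p ∣ (F t).natAbs) with hA
  set f : ℕ → (∀ p ∈ S, ℕ) := fun t p _ => t % p with hf
  have himg : A.image f ⊆ S.pi Z := by
    intro φ hφ
    rw [mem_image] at hφ
    obtain ⟨t, ht, rfl⟩ := hφ
    rw [mem_pi]
    intro p hp
    exact hZ3 p hp t ((mem_filter.1 ht).2 p hp)
  have hcard : (A.image f).card ≤ ℓ ^ S.card := by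
    refine (card_le_card himg).trans ?_
    rw [card_pi]
    calc ∏ p ∈ S, (Z p).card ≤ ∏ _p ∈ S, ℓ := prod_le_prod' fun p hp => hZ2 p hp
      _ = ℓ ^ S.card := prod_const _
  set P : ℕ := ∏ p ∈ S, p with hP
  have hfib : ∀ φ ∈ A.image f, (A.filter (fun t => f t = φ)).card ≤ ⌊(X : ℝ) / P + 1⌋₊ := by
    intro φ _
    apply Nat.le_floor
    apply card_congr_le _ ((filter_subset _ _).trans (filter_subset _ _))
    intro s hs t ht
    have h1 : f s = f t := by rw [(mem_filter.1 hs).2, (mem_filter.1 ht).2]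
    rw [Nat.modEq_iff_dvd, Int.natCast_dvd]
    apply Finset.prod_primes_dvd
    · intro p hp; exact (hS p hp).prime
    · intro p hp
      have h2 : s % p = t % p := congrFun (congrFun h1 p) hp
      have h3 : s ≡ t [MOD p] := h2
      exact Int.natCast_dvd.1 ((Nat.modEq_iff_dvd).1 h3)
  have h4 := card_le_mul_card_image A _ hfib
  have h5 : (A.card : ℝ) ≤ (⌊(X : ℝ) / P + 1⌋₊ : ℝ) * ((A.image f).card : ℝ) := by exact_mod_cast h4
  have h6 : ((⌊(X : ℝ) / P + 1⌋₊ : ℕ) : ℝ) ≤ (X : ℝ) / P + 1 := Nat.floor_le (by positivity)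
  have h7 : ((A.image f).card : ℝ) ≤ (ℓ : ℝ) ^ S.card := by exact_mod_cast hcard
  have e : (X : ℝ) / (P : ℝ) = (X : ℝ) * ∏ p ∈ S, (1 / (p : ℝ)) := by
    rw [hP]
    push_cast
    rw [div_eq_mul_inv, ← prod_inv_distrib]
    congr 1
    apply prod_congr rfl
    intro p _
    rw [one_div]
  rw [← e]
  calc (A.card : ℝ) ≤ ((X : ℝ) / P + 1) * (ℓ : ℝ) ^ S.card := by
        refine h5.trans (mul_le_mul h6 h7 (by positivity) (by positivity))
    _ = _ := by ring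

/-- the moments over the values of a function with few zeros modulo primes -/
theorem gmom (m ℓ : ℕ) (hm : 1 ≤ m) : ∃ C : ℝ, 0 < C ∧ ∀ (X : ℕ) (F : ℕ → ℤ) (g : ℕ), 1 ≤ X →
    0 < g → (∀ t ∈ Icc 1 X, (((F t).natAbs : ℕ) : ℝ) ≤ Real.exp (4 * X)) →
    (∀ p : ℕ, p.Prime → ¬ p ∣ g → ∃ Z ⊆ range p, Z.card ≤ ℓ ∧ ∀ t, p ∣ (F t).natAbs → t % p ∈ Z) →
    ∑ t ∈ Icc 1 X, (GG (F t).natAbs) ^ m ≤ C * (GG g) ^ m * X := by
  classical
  set h : ℕ := 2 ^ (m + 1) * ℓ with hh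
  obtain ⟨C₁, hC₁, hM⟩ := prod_mertens_gen h
  refine ⟨Real.exp 6 ^ m * (Real.exp (2 * h) + C₁), by positivity, ?_⟩
  intro X F g hX hg0 hbd hF
  have hXr : (1 : ℝ) ≤ X := by exact_mod_cast hX
  set W : Finset ℕ := (PP X).filter (fun p => ¬ p ∣ g) with hW
  have hWp : ∀ p ∈ W, p.Prime := fun p hp => by
    rw [hW, mem_filter, mem_filter] at hp; exact hp.1.2
  set w : Finset ℕ → ℝ := fun S => ∏ p ∈ S, ((2 : ℝ) ^ (m + 1) / (p : ℝ)) with hw
  have hw0 : ∀ S, 0 ≤ w S := fun S => prod_nonneg fun p _ => by positivity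
  -- pointwise bound
  have hpt : ∀ t ∈ Icc 1 X, (GG (F t).natAbs) ^ m ≤ Real.exp 6 ^ m * (GG g ^ m *
      ∑ S ∈ W.powerset, if (∀ p ∈ S, p ∣ (F t).natAbs) then w S else 0) := by
    intro t ht
    set n := (F t).natAbs with hn
    have hR0 : 0 ≤ ∑ S ∈ W.powerset, (if (∀ p ∈ S, p ∣ n) then w S else 0) :=
      sum_nonneg fun S _ => by split_ifs; exacts [hw0 S, le_rfl]
    have hGgm : 0 ≤ GG g ^ m := pow_nonneg (GG_nonneg g) m
    rcases Nat.eq_zero_or_pos n with h0 | h0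
    · rw [h0] at hR0 ⊢
      rw [GG_zero, zero_pow (by omega)]
      positivity
    have h1 := GG_le_small h0 hX (hbd t ht)
    set Fs := (PP X).filter (fun p => p ∣ n) with hFs
    have hFp : ∀ p ∈ Fs, p.Prime := fun p hp => by
      rw [hFs, mem_filter, mem_filter] at hp; exact hp.1.2
    have hsp := Finset.prod_filter_mul_prod_filter_not Fs (fun p => p ∣ g)
      (fun p : ℕ => (1 - (p : ℝ)⁻¹)⁻¹)
    have h2 : ∏ p ∈ Fs.filter (fun p => p ∣ g), (1 - (p : ℝ)⁻¹)⁻¹ ≤ GG g := by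
      rw [GG_eq_prod hg0]
      apply Finset.prod_le_prod_of_subset_of_one_le
      · intro p hp
        rw [mem_filter] at hp
        rw [Nat.mem_primeFactors]
        exact ⟨hFp p hp.1, hp.2, hg0.ne'⟩
      · intro p hp
        rw [mem_filter] at hp
        exact zero_le_one.trans (factor_ge_one (hFp p hp.1))
      · intro p hp _
        exact factor_ge_one (Nat.prime_of_mem_primeFactors hp)
    set V := Fs.filter (fun p => ¬ p ∣ g) with hV
    have hV0 : 0 ≤ ∏ p ∈ V, (1 - (p : ℝ)⁻¹)⁻¹ := prod_nonneg fun p hp => by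
      rw [hV, mem_filter] at hp
      exact zero_le_one.trans (factor_ge_one (hFp p hp.1))
    have h3 : GG n ≤ Real.exp 6 * (GG g * ∏ p ∈ V, (1 - (p : ℝ)⁻¹)⁻¹) := by
      refine h1.trans ?_
      rw [← hsp]
      gcongr
    have h4 : (∏ p ∈ V, (1 - (p : ℝ)⁻¹)⁻¹) ^ m ≤ ∏ p ∈ V, (1 + 2 ^ (m + 1) / (p : ℝ)) := by
      rw [← prod_pow]
      apply prod_le_prod
      · intro p hp
        have : 0 ≤ (1 - (p : ℝ)⁻¹)⁻¹ := by
          rw [hV, mem_filter] at hp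
          exact zero_le_one.trans (factor_ge_one (hFp p hp.1))
        positivity
      · intro p hp
        rw [hV, mem_filter] at hp
        exact pow_factor m (hFp p hp.1)
    have h5 : ∏ p ∈ V, (1 + 2 ^ (m + 1) / (p : ℝ)) =
        ∑ S ∈ W.powerset, if (∀ p ∈ S, p ∣ n) then w S else 0 := by
      rw [prod_one_add, ← sum_filter]
      apply sum_congr _ fun _ _ => rfl
      ext S
      simp only [mem_powerset, mem_filter, subset_iff, hV, hW, hFs]
      constructor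
      · intro h
        exact ⟨fun p hp => ⟨(h hp).1.1, (h hp).2⟩, fun p hp => (h hp).1.2⟩
      · rintro ⟨h, h'⟩ p hp
        exact ⟨⟨(h hp).1, h' p hp⟩, (h hp).2⟩
    rw [← h5]
    calc GG n ^ m ≤ (Real.exp 6 * (GG g * ∏ p ∈ V, (1 - (p : ℝ)⁻¹)⁻¹)) ^ m :=
          pow_le_pow_left₀ (GG_nonneg n) h3 m
      _ = Real.exp 6 ^ m * (GG g ^ m * (∏ p ∈ V, (1 - (p : ℝ)⁻¹)⁻¹) ^ m) := by
          rw [mul_pow, mul_pow]
      _ ≤ _ := by
          gcongr
  refine (sum_le_sum hpt).trans ?_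
  rw [← mul_sum, ← mul_sum, sum_comm]
  have hin : ∀ S ∈ W.powerset, ∑ t ∈ Icc 1 X,
      (if (∀ p ∈ S, p ∣ (F t).natAbs) then w S else 0) ≤
      X * ∏ p ∈ S, ((h : ℝ) / (p : ℝ) ^ 2) + ∏ p ∈ S, ((h : ℝ) / (p : ℝ)) := by
    intro S hS
    rw [mem_powerset] at hS
    rw [← sum_filter, sum_const, nsmul_eq_mul]
    have h1 := count_dvd_gen (X := X) (ℓ := ℓ) (F := F) S (fun p hp => hWp p (hS hp)) (fun p hp => by
      have hpW := hS hp
      rw [hW, mem_filter] at hpW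
      exact hF p (hWp p (hS hp)) hpW.2)
    have h2 := mul_le_mul_of_nonneg_right h1 (hw0 S)
    refine h2.trans (le_of_eq ?_)
    have e1 : (∏ p ∈ S, (1 / (p : ℝ))) * (w S * (ℓ : ℝ) ^ S.card) = ∏ p ∈ S, ((h : ℝ) / (p : ℝ) ^ 2) := by
      rw [hw, ← prod_const, ← prod_mul_distrib, ← prod_mul_distrib]
      apply prod_congr rfl
      intro p _
      rw [hh]; push_cast; ring
    have e2 : w S * (ℓ : ℝ) ^ S.card = ∏ p ∈ S, ((h : ℝ) / (p : ℝ)) := by
      rw [hw, ← prod_const, ← prod_mul_distrib]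
      apply prod_congr rfl
      intro p _
      rw [hh]; push_cast; ring
    calc (ℓ : ℝ) ^ S.card * ((X : ℝ) * ∏ p ∈ S, (1 / (p : ℝ)) + 1) * w S
        = X * ((∏ p ∈ S, (1 / (p : ℝ))) * (w S * (ℓ : ℝ) ^ S.card)) + w S * (ℓ : ℝ) ^ S.card := by ring
      _ = _ := by rw [e1, e2]
  have hsum := sum_le_sum hin
  rw [sum_add_distrib, ← mul_sum] at hsum
  have e1 : ∑ S ∈ W.powerset, ∏ p ∈ S, ((h : ℝ) / (p : ℝ) ^ 2) = ∏ p ∈ W, (1 + (h : ℝ) / (p : ℝ) ^ 2) :=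
    (prod_one_add _).symm
  have e2 : ∑ S ∈ W.powerset, ∏ p ∈ S, ((h : ℝ) / (p : ℝ)) = ∏ p ∈ W, (1 + (h : ℝ) / (p : ℝ)) :=
    (prod_one_add _).symm
  rw [e1, e2] at hsum
  have h1 : ∏ p ∈ W, (1 + (h : ℝ) / (p : ℝ) ^ 2) ≤ Real.exp (2 * h) := by
    refine (prod_exp_le W _ fun p _ => by positivity).trans (Real.exp_le_exp.2 ?_)
    have h3 := sum_inv_sq_PP X
    have h4 : ∑ p ∈ W, (h : ℝ) / (p : ℝ) ^ 2 ≤ ∑ p ∈ PP X, (h : ℝ) / (p : ℝ) ^ 2 :=
      sum_le_sum_of_subset_of_nonneg (filter_subset _ _) fun p _ _ => by positivity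
    have e3 : ∑ p ∈ PP X, (h : ℝ) / (p : ℝ) ^ 2 = ((h : ℝ) / 126) * ∑ p ∈ PP X, 126 / (p : ℝ) ^ 2 := by
      rw [mul_sum]; apply sum_congr rfl; intro p _; ring
    rw [e3] at h4
    have h5 : ((h : ℝ) / 126) * ∑ p ∈ PP X, 126 / (p : ℝ) ^ 2 ≤ ((h : ℝ) / 126) * 252 := by gcongr
    linarith
  have h2 : ∏ p ∈ W, (1 + (h : ℝ) / (p : ℝ)) ≤ C₁ * X := by
    refine le_trans ?_ (hM X hX)
    apply Finset.prod_le_prod_of_subset_of_one_le (filter_subset _ _)
    · intro p _; positivity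
    · intro p _ _
      have : (0 : ℝ) ≤ (h : ℝ) / (p : ℝ) := by positivity
      linarith
  have hGg := GG_nonneg g
  calc Real.exp 6 ^ m * (GG g ^ m * ∑ S ∈ W.powerset, ∑ t ∈ Icc 1 X,
        (if (∀ p ∈ S, p ∣ (F t).natAbs) then w S else 0))
      ≤ Real.exp 6 ^ m * (GG g ^ m * (X * Real.exp (2 * h) + C₁ * X)) := by
        gcongr
        exact hsum.trans (by gcongr)
    _ = _ := by ring

/-- moments over the integers -/
theorem gmom_id (m : ℕ) (hm : 1 ≤ m) : ∃ C : ℝ, 0 < C ∧ ∀ X : ℕ,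
    ∑ t ∈ Icc 1 X, (GG t) ^ m ≤ C * X := by
  obtain ⟨C, hC, h⟩ := gmom m 1 hm
  refine ⟨C, hC, fun X => ?_⟩
  rcases Nat.eq_zero_or_pos X with rfl | hX
  · simp
  have h1 := h X (fun t => (t : ℤ)) 1 hX one_pos (by
    intro t ht
    rw [mem_Icc] at ht
    have h2 : (t : ℝ) ≤ X := by exact_mod_cast ht.2
    have h3 := Real.add_one_le_exp (4 * (X : ℝ))
    have h4 : (0 : ℝ) ≤ X := Nat.cast_nonneg X
    simp only [Int.natAbs_natCast]
    linarith) (by
    intro p hp _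
    refine ⟨{0}, ?_, by simp, ?_⟩
    · intro a ha
      rw [mem_singleton] at ha
      subst ha
      exact mem_range.2 hp.pos
    · intro t ht
      rw [Int.natAbs_natCast] at ht
      rw [mem_singleton]
      exact Nat.eq_zero_of_dvd_of_lt ((Nat.dvd_mod_iff dvd_rfl).2 ht) (Nat.mod_lt _ hp.pos))
  have e : GG 1 = 1 := by simp [GG]
  rw [e, one_pow, mul_one] at h1
  simpa only [Int.natAbs_natCast] using h1

/-- few zeros modulo primes for polynomials -/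
lemma poly_zeros (P : Polynomial ℤ) (ℓ : ℕ) (hP : P.natDegree ≤ ℓ) (p : ℕ) (hp : p.Prime)
    (h0 : ¬ p ∣ (P.coeff 0).natAbs) :
    ∃ Z ⊆ range p, Z.card ≤ ℓ ∧ ∀ t : ℕ, p ∣ (P.eval (t : ℤ)).natAbs → t % p ∈ Z := by
  classical
  have : Fact p.Prime := ⟨hp⟩
  set Q : Polynomial (ZMod p) := P.map (Int.castRingHom (ZMod p)) with hQ
  have hev : ∀ t : ℕ, ((P.eval (t : ℤ) : ℤ) : ZMod p) = Q.eval (t : ZMod p) := by
    intro t
    rw [hQ, Polynomial.eval_map, Polynomial.eval₂_at_natCast]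
    simp
  have hQ0 : Q ≠ 0 := by
    intro h
    apply h0
    have h1 : Q.coeff 0 = 0 := by rw [h]; simp
    rw [hQ, Polynomial.coeff_map] at h1
    have h2 : ((P.coeff 0 : ℤ) : ZMod p) = 0 := by simpa using h1
    rw [ZMod.intCast_zmod_eq_zero_iff_dvd] at h2
    exact Int.natCast_dvd.1 h2
  refine ⟨(range p).filter (fun r : ℕ => Q.eval (r : ZMod p) = 0), filter_subset _ _, ?_, ?_⟩
  · have h1 : ((range p).filter (fun r : ℕ => Q.eval (r : ZMod p) = 0)).card ≤ Q.roots.toFinset.card := by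
      apply card_le_card_of_injOn (fun r : ℕ => (r : ZMod p))
      · intro r hr
        rw [mem_coe, mem_filter] at hr
        rw [mem_coe, Multiset.mem_toFinset, Polynomial.mem_roots hQ0]
        exact hr.2
      · intro r hr s hs hrs
        rw [mem_coe, mem_filter, mem_range] at hr hs
        have h2 : (r : ZMod p) = (s : ZMod p) := hrs
        have h3 := (ZMod.natCast_eq_natCast_iff' r s p).1 h2
        rwa [Nat.mod_eq_of_lt hr.1, Nat.mod_eq_of_lt hs.1] at h3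
    refine h1.trans ((Multiset.toFinset_card_le _).trans ?_)
    refine (Polynomial.card_roots' Q).trans ?_
    exact (Polynomial.natDegree_map_le).trans hP
  · intro t ht
    rw [mem_filter, mem_range]
    refine ⟨Nat.mod_lt _ hp.pos, ?_⟩
    have h1 : ((t % p : ℕ) : ZMod p) = (t : ZMod p) := by
      rw [ZMod.natCast_eq_natCast_iff']
      exact Nat.mod_mod _ _
    rw [h1, ← hev, ZMod.intCast_zmod_eq_zero_iff_dvd]
    exact Int.natCast_dvd.2 ht

end Pool.Agent.W218.LF
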