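import Mathlib
import Pool.Agent.W218.LF.Gmom
import Pool.Agent.W218.HF.Second
import Pool.Agent.W218.HF.Count

set_option autoImplicit false

/-! Counts of the linear coefficients for one and for two arguments. -/

namespace Pool.Agent.W218.LF

open Finset Pool.Agent.Erdos456 Pool.Agent.Erdos456.Mert Pool.Agent.W218.HF

/-- the indicator of the primes -/
noncomputable def pr (n : ℤ) : ℝ := if n.toNat.Prime then 1 else 0

lemma pr_nonneg (n : ℤ) : 0 ≤ pr n := by unfold pr; split_ifs <;> norm_num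

lemma pr_sq (n : ℤ) : pr n * pr n = pr n := by unfold pr; split_ifs <;> norm_num

lemma sum_pr_pr (S : Finset ℕ) (u v : ℕ → ℤ) : ∑ b ∈ S, pr (u b) * pr (v b) =
    (((S.filter (fun b => (u b).toNat.Prime ∧ (v b).toNat.Prime)).card : ℕ) : ℝ) := by
  rw [card_filter]
  push_cast
  apply sum_congr rfl
  intro b _
  unfold pr
  by_cases h1 : (u b).toNat.Prime <;> by_cases h2 : (v b).toNat.Prime <;> simp [h1, h2]

lemma sum_pr (S : Finset ℕ) (u : ℕ → ℤ) : ∑ b ∈ S, pr (u b) =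
    (((S.filter (fun b => (u b).toNat.Prime)).card : ℕ) : ℝ) := by
  rw [card_filter]
  push_cast
  apply sum_congr rfl
  intro b _
  unfold pr
  rfl

lemma window_logs {B b1 : ℕ} (hB : 4 ≤ B) (h1 : B ≤ b1) (h2 : 2 * b1 ≤ 3 * B) :
    0 < Real.log B ∧ 2 ≤ 2 * B - b1 ∧
    ((2 * B - b1 : ℕ) : ℝ) / Real.log ((2 * B - b1 : ℕ) : ℝ) ≤ 2 * (B / Real.log B) ∧
    ((2 * B - b1 : ℕ) : ℝ) / Real.log ((2 * B - b1 : ℕ) : ℝ) ^ 2 ≤ 4 * (B / Real.log B ^ 2) := by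
  have hBr : (4 : ℝ) ≤ B := by exact_mod_cast hB
  have hlB : 0 < Real.log B := Real.log_pos (by linarith)
  set N := 2 * B - b1 with hN
  have hN2 : 2 ≤ N := by omega
  have hNB : (N : ℝ) ≤ B := by
    have : N ≤ B := by omega
    exact_mod_cast this
  have hNhalf : (B : ℝ) ≤ 2 * N := by
    have : B ≤ 2 * N := by omega
    exact_mod_cast this
  have hN0 : (0 : ℝ) < N := by linarith
  have hlN : Real.log B / 2 ≤ Real.log N := by
    have h1 : Real.log B ≤ Real.log ((N : ℝ) ^ 2) := by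
      apply Real.log_le_log (by linarith)
      nlinarith
    rw [Real.log_pow] at h1
    push_cast at h1
    linarith
  have hlN0 : 0 < Real.log N := by linarith
  refine ⟨hlB, hN2, ?_, ?_⟩
  · rw [div_le_iff₀ hlN0]
    have : (2 : ℝ) * (B / Real.log B) * Real.log N = (B / Real.log B) * (2 * Real.log N) := by ring
    rw [this]
    have h2 : (B : ℝ) / Real.log B * (2 * Real.log N) ≥ (B / Real.log B) * Real.log B := by
      apply mul_le_mul_of_nonneg_left _ (by positivity)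
      linarith
    rw [div_mul_cancel₀ _ hlB.ne'] at h2
    linarith
  · rw [div_le_iff₀ (by positivity)]
    have : (4 : ℝ) * (B / Real.log B ^ 2) * Real.log N ^ 2 =
      (B / Real.log B ^ 2) * (2 * Real.log N) ^ 2 := by ring
    rw [this]
    have h2 : (B : ℝ) / Real.log B ^ 2 * (2 * Real.log N) ^ 2 ≥
        (B / Real.log B ^ 2) * Real.log B ^ 2 := by
      apply mul_le_mul_of_nonneg_left _ (by positivity)
      exact pow_le_pow_left₀ hlB.le (by linarith) 2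
    rw [div_mul_cancel₀ _ (by positivity)] at h2
    linarith

lemma ioc_image (b1 M : ℕ) : Ioc b1 M = (Icc 1 (M - b1)).image (fun n => b1 + n) := by
  ext b
  simp only [mem_Ioc, mem_image, mem_Icc]
  constructor
  · intro h; exact ⟨b - b1, by omega, by omega⟩
  · rintro ⟨n, hn, rfl⟩; omega

/-- one argument -/
lemma single_count {B b1 t : ℕ} {G : ℤ} (hB : 4 ≤ B) (h1 : B ≤ b1) (h2 : 2 * b1 ≤ 3 * B)
    (ht : 1 ≤ t) (hG : 0 ≤ G + b1 * t) :
    ∑ b ∈ Ioc b1 (2 * B), pr (G + b * t) ≤ 40 * GG t * (B / Real.log B) := by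
  obtain ⟨hlB, hN2, hNl, _⟩ := window_logs hB h1 h2
  rw [ioc_image, sum_image (fun n _ m _ h => by
      have h' : b1 + n = b1 + m := h
      omega)]
  set N := 2 * B - b1 with hN
  set e : ℕ := (G + b1 * t).toNat with he
  have hee : ((e : ℕ) : ℤ) = G + b1 * t := Int.toNat_of_nonneg hG
  have h3 := one_form (t := t) (e := e) (N := N) ht hN2
  rw [sum_pr]
  have h4 : (Icc 1 N).filter (fun n : ℕ => (G + ((b1 + n : ℕ) : ℤ) * t).toNat.Prime) =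
      (Icc 1 N).filter (fun n => (t * n + e).Prime) := by
    apply filter_congr
    intro n _
    have h5 : G + ((b1 + n : ℕ) : ℤ) * t = ((t * n + e : ℕ) : ℤ) := by
      push_cast; rw [hee]; ring
    rw [h5, Int.toNat_natCast]
  rw [h4]
  refine h3.trans ?_
  have h6 := GG_nonneg t
  calc 20 * GG t * (N / Real.log N) ≤ 20 * GG t * (2 * (B / Real.log B)) := by gcongr
    _ = _ := by ring

/-- two arguments -/
theorem pair_count : ∃ C : ℝ, 0 < C ∧ ∀ (B b1 t₁ t₂ : ℕ) (G₁ G₂ c : ℤ), 4 ≤ B → B ≤ b1 →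
    2 * b1 ≤ 3 * B → 1 ≤ t₁ → 1 ≤ t₂ → t₁ ≠ t₂ → (t₁ : ℤ) ∣ G₁ - c → (t₂ : ℤ) ∣ G₂ - c →
    Nat.Coprime t₁ c.natAbs → Nat.Coprime t₂ c.natAbs → 0 ≤ G₁ + b1 * t₁ → 0 ≤ G₂ + b1 * t₂ →
    ∑ b ∈ Ioc b1 (2 * B), pr (G₁ + b * t₁) * pr (G₂ + b * t₂) ≤
      C * (GG t₁ * GG t₂ * GG ((t₁ : ℤ) * G₂ - (t₂ : ℤ) * G₁).natAbs) ^ 2 * (B / Real.log B ^ 2) := by
  obtain ⟨C₃, hC₃, hsv⟩ := sieve_two'
  refine ⟨C₃ * 4, by positivity, ?_⟩
  intro B b1 t₁ t₂ G₁ G₂ c hB h1 h2 ht₁ ht₂ hne12 hd₁ hd₂ hc₁ hc₂ hG₁ hG₂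
  obtain ⟨hlB, hN2, _, hNl2⟩ := window_logs hB h1 h2
  rw [ioc_image, sum_image (fun n _ m _ h => by
      have h' : b1 + n = b1 + m := h
      omega)]
  set N := 2 * B - b1 with hN
  have hlN : 0 ≤ Real.log N := Real.log_natCast_nonneg N
  set e₁ : ℕ := (G₁ + b1 * t₁).toNat with he₁
  set e₂ : ℕ := (G₂ + b1 * t₂).toNat with he₂
  have hee₁ : ((e₁ : ℕ) : ℤ) = G₁ + b1 * t₁ := Int.toNat_of_nonneg hG₁
  have hee₂ : ((e₂ : ℕ) : ℤ) = G₂ + b1 * t₂ := Int.toNat_of_nonneg hG₂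
  have hcop : ∀ (t e : ℕ) (G : ℤ), ((e : ℕ) : ℤ) = G + b1 * t → (t : ℤ) ∣ G - c →
      Nat.Coprime t c.natAbs → Nat.Coprime t e := by
    intro t e G h3 h4 h5
    obtain ⟨u, hu⟩ := h4
    have h6 : IsCoprime (t : ℤ) c := by
      rw [Int.isCoprime_iff_gcd_eq_one]
      exact h5
    have h7 : IsCoprime (t : ℤ) ((e : ℕ) : ℤ) := by
      rw [h3]
      have := h6.add_mul_left_right (u + b1)
      have e3 : c + t * (u + b1) = G + b1 * t := by linear_combination -hu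
      rwa [e3] at this
    exact Nat.isCoprime_iff_coprime.1 h7
  have hcop₁ := hcop t₁ e₁ G₁ hee₁ hd₁ hc₁
  have hcop₂ := hcop t₂ e₂ G₂ hee₂ hd₂ hc₂
  have hkey : ((t₁ * e₂ : ℕ) : ℤ) - ((t₂ * e₁ : ℕ) : ℤ) = (t₁ : ℤ) * G₂ - (t₂ : ℤ) * G₁ := by
    push_cast
    rw [hee₁, hee₂]; ring
  have hne : t₁ * e₂ ≠ t₂ * e₁ := by
    intro h
    have h3 : t₁ ∣ t₂ := by
      have : t₁ ∣ t₂ * e₁ := by rw [← h]; exact dvd_mul_right _ _
      exact hcop₁.dvd_of_dvd_mul_right this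
    have h4 : t₂ ∣ t₁ := by
      have : t₂ ∣ t₁ * e₂ := by rw [h]; exact dvd_mul_right _ _
      exact hcop₂.dvd_of_dvd_mul_right this
    exact hne12 (Nat.dvd_antisymm h3 h4)
  have h3 := hsv t₁ e₁ t₂ e₂ N (by omega) (by omega) hcop₁ hcop₂ hne hN2
  rw [hkey] at h3
  rw [sum_pr_pr]
  have h4 : (Icc 1 N).filter (fun n : ℕ => (G₁ + ((b1 + n : ℕ) : ℤ) * t₁).toNat.Prime ∧
      (G₂ + ((b1 + n : ℕ) : ℤ) * t₂).toNat.Prime) =
      (Icc 1 N).filter (fun n => (t₁ * n + e₁).Prime ∧ (t₂ * n + e₂).Prime) := by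
    apply filter_congr
    intro n _
    have h5 : G₁ + ((b1 + n : ℕ) : ℤ) * t₁ = ((t₁ * n + e₁ : ℕ) : ℤ) := by
      push_cast; rw [hee₁]; ring
    have h6 : G₂ + ((b1 + n : ℕ) : ℤ) * t₂ = ((t₂ * n + e₂ : ℕ) : ℤ) := by
      push_cast; rw [hee₂]; ring
    rw [h5, h6, Int.toNat_natCast, Int.toNat_natCast]
  rw [h4]
  refine h3.trans ?_
  set v := ((t₁ : ℤ) * G₂ - (t₂ : ℤ) * G₁).natAbs with hv
  have h7 : GG (t₁ * t₂ * v) ≤ GG t₁ * GG t₂ * GG v := by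
    calc GG (t₁ * t₂ * v) ≤ GG (t₁ * t₂) * GG v := GG_mul_le _ _
      _ ≤ (GG t₁ * GG t₂) * GG v := by
          apply mul_le_mul_of_nonneg_right (GG_mul_le _ _) (GG_nonneg _)
  have h8 : GG (t₁ * t₂ * v) ^ 2 ≤ (GG t₁ * GG t₂ * GG v) ^ 2 := pow_le_pow_left₀ (GG_nonneg _) h7 2
  calc C₃ * GG (t₁ * t₂ * v) ^ 2 * N / Real.log N ^ 2
      = C₃ * GG (t₁ * t₂ * v) ^ 2 * (N / Real.log N ^ 2) := by ring
    _ ≤ C₃ * (GG t₁ * GG t₂ * GG v) ^ 2 * (4 * (B / Real.log B ^ 2)) := by gcongr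
    _ = _ := by ring

end Pool.Agent.W218.LF
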