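import Mathlib
import Pool.Agent.W218.LF.Block2

set_option autoImplicit false

/-! First moment over the linear coefficients of `k` polynomials: all `t`. -/

namespace Pool.Agent.W218.LF

open Finset Pool.Agent.Erdos456 Pool.Agent.Erdos456.Mert Pool.Agent.W218.HF

/-- the values of a polynomial near `y` -/
lemma poly_var {g : Polynomial ℤ} {d : ℕ} (hg : g.natDegree ≤ d) {x B : ℕ} {η y : ℝ}
    (hη : 0 < η) (hη1 : η ≤ 1) (hy0 : 0 < y) (hyx : y ≤ x)
    (hA : ∑ j ∈ Icc 1 d, |((g.coeff j : ℤ) : ℝ)| * (x : ℝ) ^ (j - 1) ≤ B) :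
    |∑ j ∈ Icc 1 d, ((g.coeff j : ℤ) : ℝ) * y ^ j| ≤ B * y ∧
    ∀ t : ℕ, (1 - η) * y < t → (t : ℝ) ≤ y →
      |((g.eval (t : ℤ) : ℤ) : ℝ) - g.coeff 0 - ∑ j ∈ Icc 1 d, ((g.coeff j : ℤ) : ℝ) * y ^ j| ≤
        d * η * (B * y) := by
  have hpow : ∀ j ∈ Icc 1 d, y ^ j ≤ x ^ (j - 1) * y := by
    intro j hj
    obtain ⟨i, rfl⟩ : ∃ i, j = i + 1 := ⟨j - 1, by have := (mem_Icc.1 hj).1; omega⟩
    rw [Nat.add_sub_cancel, pow_succ]
    gcongr
  have habs : ∑ j ∈ Icc 1 d, |((g.coeff j : ℤ) : ℝ)| * y ^ j ≤ B * y := by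
    calc ∑ j ∈ Icc 1 d, |((g.coeff j : ℤ) : ℝ)| * y ^ j
        ≤ ∑ j ∈ Icc 1 d, |((g.coeff j : ℤ) : ℝ)| * (x ^ (j - 1) * y) := by
          apply sum_le_sum
          intro j hj
          exact mul_le_mul_of_nonneg_left (hpow j hj) (abs_nonneg _)
      _ = (∑ j ∈ Icc 1 d, |((g.coeff j : ℤ) : ℝ)| * (x : ℝ) ^ (j - 1)) * y := by
          rw [sum_mul]; apply sum_congr rfl; intro j _; ring
      _ ≤ B * y := by gcongr
  constructor
  · refine (abs_sum_le_sum_abs _ _).trans (le_trans (le_of_eq ?_) habs)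
    apply sum_congr rfl
    intro j _
    rw [abs_mul, abs_of_nonneg (pow_nonneg hy0.le j)]
  · intro t ht1 ht2
    have ht0 : (0 : ℝ) ≤ t := Nat.cast_nonneg t
    have h1 : ((g.eval (t : ℤ) : ℤ) : ℝ) - g.coeff 0 =
        ∑ j ∈ Icc 1 d, ((g.coeff j : ℤ) : ℝ) * (t : ℝ) ^ j := by
      have h2 := Polynomial.eval_eq_sum_range' (show g.natDegree < d + 1 by omega) (t : ℤ)
      rw [h2, sum_range_succ']
      push_cast
      simp only [pow_zero, mul_one, add_sub_cancel_right]
      have h3 : Icc 1 d = (range d).image (fun i => i + 1) := by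
        ext j
        simp only [mem_Icc, mem_image, mem_range]
        constructor
        · intro h; exact ⟨j - 1, by omega, by omega⟩
        · rintro ⟨i, hi, rfl⟩; omega
      rw [h3, sum_image (fun a _ b _ h => by
        have h' : a + 1 = b + 1 := h
        omega)]
    rw [h1, ← sum_sub_distrib]
    refine (abs_sum_le_sum_abs _ _).trans ?_
    have h4 : ∀ j ∈ Icc 1 d, |((g.coeff j : ℤ) : ℝ) * (t : ℝ) ^ j - ((g.coeff j : ℤ) : ℝ) * y ^ j| ≤
        (d * η) * (|((g.coeff j : ℤ) : ℝ)| * y ^ j) := by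
      intro j hj
      have hjd : (j : ℝ) ≤ d := by exact_mod_cast (mem_Icc.1 hj).2
      rw [← mul_sub, abs_mul]
      have h5 : |(t : ℝ) ^ j - y ^ j| ≤ d * η * y ^ j := by
        have h6 : (t : ℝ) ^ j ≤ y ^ j := pow_le_pow_left₀ ht0 ht2 j
        rw [abs_of_nonpos (by linarith)]
        have h7 : ((1 - η) * y) ^ j ≤ (t : ℝ) ^ j :=
          pow_le_pow_left₀ (mul_nonneg (by linarith) hy0.le) ht1.le j
        rw [mul_pow] at h7
        have h8 : 1 - j * η ≤ (1 - η) ^ j := by
          have := one_add_mul_le_pow (show (-2 : ℝ) ≤ -η by linarith) j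
          have e : 1 + (j : ℝ) * -η = 1 - j * η := by ring
          rw [e] at this
          have e2 : 1 + -η = 1 - η := by ring
          rwa [e2] at this
        have h9 : 0 ≤ y ^ j := pow_nonneg hy0.le j
        have h10 := mul_le_mul_of_nonneg_right h8 h9
        have h11 : j * η * y ^ j ≤ d * η * y ^ j := by gcongr
        linarith
      calc |((g.coeff j : ℤ) : ℝ)| * |(t : ℝ) ^ j - y ^ j|
          ≤ |((g.coeff j : ℤ) : ℝ)| * (d * η * y ^ j) := by gcongr
        _ = _ := by ring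
    refine (sum_le_sum h4).trans ?_
    rw [← mul_sum]
    gcongr

lemma prod_lower {ι : Type*} [DecidableEq ι] (s : Finset ι) (n E : ι → ℝ) (M : ℝ) (hM : 0 < M)
    (hn : ∀ i ∈ s, 0 ≤ n i) (hE : ∀ i ∈ s, 0 ≤ E i) (h : ∀ i ∈ s, M - E i ≤ n i) :
    M ^ s.card * (1 - ∑ i ∈ s, E i / M) ≤ ∏ i ∈ s, n i := by
  induction s using Finset.induction_on with
  | empty => simp
  | insert a s ha ih =>
    have ih' := ih (fun i hi => hn i (mem_insert_of_mem hi)) (fun i hi => hE i (mem_insert_of_mem hi))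
      (fun i hi => h i (mem_insert_of_mem hi))
    rw [card_insert_of_notMem ha, sum_insert ha, prod_insert ha]
    have hP0 : 0 ≤ ∏ i ∈ s, n i := prod_nonneg fun i hi => hn i (mem_insert_of_mem hi)
    have hna := hn a (mem_insert_self a s)
    have hEa := hE a (mem_insert_self a s)
    have hha := h a (mem_insert_self a s)
    have hS0 : 0 ≤ ∑ i ∈ s, E i / M := sum_nonneg fun i hi =>
      div_nonneg (hE i (mem_insert_of_mem hi)) hM.le
    have he0 : 0 ≤ E a / M := div_nonneg hEa hM.le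
    set S := ∑ i ∈ s, E i / M with hS
    set e := E a / M with he
    have hMe : M * (1 - e) = M - E a := by rw [he]; field_simp
    have hMk : 0 < M ^ s.card := pow_pos hM _
    by_cases hc : 1 - (e + S) ≤ 0
    · have h1 : M ^ (s.card + 1) * (1 - (e + S)) ≤ 0 :=
        mul_nonpos_of_nonneg_of_nonpos (by positivity) hc
      exact h1.trans (mul_nonneg hna hP0)
    · push Not at hc
      have h1 : 0 ≤ M * (1 - e) := mul_nonneg hM.le (by linarith)
      have h2 : 0 ≤ M ^ s.card * (1 - S) := mul_nonneg hMk.le (by linarith)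
      have h3 : M * (1 - e) * (M ^ s.card * (1 - S)) ≤ n a * ∏ i ∈ s, n i :=
        mul_le_mul (by rw [hMe]; exact hha) ih' h2 hna
      refine le_trans ?_ h3
      have e1 : M * (1 - e) * (M ^ s.card * (1 - S)) - M ^ (s.card + 1) * (1 - (e + S)) =
          M ^ (s.card + 1) * (e * S) := by ring
      have h4 : 0 ≤ M ^ (s.card + 1) * (e * S) := by positivity
      linarith

/-- crude bound for `t / φ(t)` -/
lemma GG_crude : ∃ C : ℝ, 0 < C ∧ ∀ (B t : ℕ), 3 ≤ B → 1 ≤ t → t ≤ B → GG t ≤ C * Real.log B := by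
  obtain ⟨C₁, hC₁, h⟩ := prod_mertens
  refine ⟨Real.exp 6 * (C₁ * 2), by positivity, ?_⟩
  intro B t hB ht htB
  have hBr : (3 : ℝ) ≤ B := by exact_mod_cast hB
  have hl1 : 1 ≤ Real.log B := by
    rw [Real.le_log_iff_exp_le (by linarith)]
    have := Real.exp_one_lt_d9
    linarith
  set X : ℕ := ⌈Real.log B⌉₊ with hX
  have hX1 : 1 ≤ X := Nat.one_le_ceil_iff.2 (by linarith)
  have hXl : Real.log B ≤ X := Nat.le_ceil _
  have hXu : (X : ℝ) ≤ 2 * Real.log B := by
    have := Nat.ceil_lt_add_one (show 0 ≤ Real.log B by linarith)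
    rw [← hX] at this
    linarith
  have h1 : (t : ℝ) ≤ Real.exp (4 * X) := by
    have h2 : (t : ℝ) ≤ B := by exact_mod_cast htB
    have h3 : (B : ℝ) ≤ Real.exp X := by
      have := Real.exp_le_exp.2 hXl
      rwa [Real.exp_log (by linarith)] at this
    have h4 : Real.exp (X : ℝ) ≤ Real.exp (4 * X) := Real.exp_le_exp.2 (by
      have : (0 : ℝ) ≤ X := Nat.cast_nonneg X
      linarith)
    linarith
  have h5 := GG_le_small ht hX1 h1
  have h6 : ∏ p ∈ (PP X).filter (fun p => p ∣ t), (1 - (p : ℝ)⁻¹)⁻¹ ≤ ∏ p ∈ PP X, (1 + 126 / (p : ℝ)) := by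
    calc ∏ p ∈ (PP X).filter (fun p => p ∣ t), (1 - (p : ℝ)⁻¹)⁻¹
        ≤ ∏ p ∈ (PP X).filter (fun p => p ∣ t), (1 + 126 / (p : ℝ)) := by
          apply prod_le_prod
          · intro p hp
            rw [mem_filter, mem_filter] at hp
            exact zero_le_one.trans (factor_ge_one hp.1.2)
          · intro p hp
            rw [mem_filter, mem_filter] at hp
            have h7 := factor_ge_one hp.1.2
            exact (le_self_pow₀ h7 (by norm_num)).trans (six_factor hp.1.2)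
      _ ≤ _ := by
          apply Finset.prod_le_prod_of_subset_of_one_le (filter_subset _ _)
          · intro p _; positivity
          · intro p _ _
            have : (0 : ℝ) ≤ 126 / (p : ℝ) := by positivity
            linarith
  calc GG t ≤ Real.exp 6 * ∏ p ∈ (PP X).filter (fun p => p ∣ t), (1 - (p : ℝ)⁻¹)⁻¹ := h5
    _ ≤ Real.exp 6 * (C₁ * X) := by
        have := h6.trans (h X hX1)
        gcongr
    _ ≤ Real.exp 6 * (C₁ * (2 * Real.log B)) := by gcongr
    _ = _ := by ring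

end Pool.Agent.W218.LF
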