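import Mathlib
import Pool.Agent.W218.LF.FirstTotal2

set_option autoImplicit false

/-! First moment over the linear coefficients of `k` polynomials: all `t`, the result. -/

namespace Pool.Agent.W218.LF

open Finset Pool.Agent.Erdos456 Pool.Agent.Erdos456.Mert Pool.Agent.W218.HF

/-- the number of linear coefficients for which the value at `t` is prime -/
noncomputable def nn (b1 B : ℕ) (g : Polynomial ℤ) (t : ℕ) : ℝ :=
  ∑ b ∈ Ioc b1 (2 * B), pr (g.eval (t : ℤ) + b * t)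

lemma nn_nonneg (b1 B : ℕ) (g : Polynomial ℤ) (t : ℕ) : 0 ≤ nn b1 B g t :=
  sum_nonneg fun _ _ => pr_nonneg _

theorem first_total2 (k : ℕ) (hk : 1 ≤ k) : ∃ K : ℕ, ∀ (d : ℕ) (η : ℝ), 0 < η →
    (2 * d + 6) * η ≤ 1 / 8 → ∀ δ : ℝ, 0 < δ → ∃ J B0 : ℕ, ∀ B : ℕ, B0 ≤ B →
    ∀ (x : ℕ) (g : Fin k → Polynomial ℤ) (T : Finset ℕ), Real.log B ≤ x →
    x * Real.log B ^ K ≤ B → (∀ i, (g i).natDegree ≤ d) → (∀ i, ((g i).coeff 0).natAbs ≤ B) →
    (∀ i, ∑ j ∈ Icc 1 d, |(((g i).coeff j : ℤ) : ℝ)| * (x : ℝ) ^ (j - 1) ≤ B) →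
    T ⊆ Icc 1 x → (∀ t ∈ T, ∀ i, Nat.Coprime t ((g i).coeff 0).natAbs) → δ * x ≤ T.card →
    3 / η ≤ (1 - η) ^ J * x ∧
    (1 - (k * (2 * d + 7) + 2) * η) * (B / Real.log (B * x)) ^ k * ∑ t ∈ T, GG t ^ k ≤
      ∑ t ∈ T.filter (fun t : ℕ => (1 - η) ^ J * (x : ℝ) < t), ∏ i, nn (lo η B) B (g i) t := by
  classical
  obtain ⟨K, hblock⟩ := block2 (k + 1)
  refine ⟨K, ?_⟩
  intro d η hη hη2 δ hδ
  obtain ⟨B₁, hblock⟩ := hblock d η hη hη2
  obtain ⟨C₁, hC₁, hid⟩ := gmom_id k hk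
  obtain ⟨C₅, hC₅, hcrude⟩ := GG_crude
  have hd0 : (0 : ℝ) ≤ d := Nat.cast_nonneg d
  have hdη0 : 0 ≤ (d : ℝ) * η := by positivity
  have hη48 : η ≤ 1 / 48 := by nlinarith
  set ρ : ℝ := 1 - η with hρ
  have hρ0 : 0 < ρ := by rw [hρ]; linarith
  have hρ1 : ρ < 1 := by rw [hρ]; linarith
  obtain ⟨J, hJ⟩ := exists_pow_lt_of_lt_one (show 0 < η * δ / C₁ by positivity) hρ1
  have hρJ : 0 < ρ ^ J := by positivity
  set Z : ℝ := C₅ ^ (k - 1) * (6 * k * J) * 2 ^ k with hZ
  have hZ0 : 0 ≤ Z := by positivity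
  refine ⟨J, max (max B₁ 3) ⌈Real.exp (3 / η / ρ ^ J + Z / (η * δ) + 2 / η)⌉₊, ?_⟩
  intro B hB x g T hlog hxB hg hcB hA hT hTc hTcard
  have hB1 : B₁ ≤ B := (le_max_left _ _).trans ((le_max_left _ _).trans hB)
  have hB3 : 3 ≤ B := (le_max_right _ _).trans ((le_max_left _ _).trans hB)
  have hBe : ⌈Real.exp (3 / η / ρ ^ J + Z / (η * δ) + 2 / η)⌉₊ ≤ B :=
    (le_max_right _ _).trans hB
  have hBe' : Real.exp (3 / η / ρ ^ J + Z / (η * δ) + 2 / η) ≤ B :=
    (Nat.le_ceil _).trans (by exact_mod_cast hBe)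
  have hBr : (3 : ℝ) ≤ B := by exact_mod_cast hB3
  have hB0 : (0 : ℝ) < B := by linarith
  have hl : 3 / η / ρ ^ J + Z / (η * δ) + 2 / η ≤ Real.log B := by
    rw [Real.le_log_iff_exp_le hB0]; exact hBe'
  have p1 : 0 ≤ 3 / η / ρ ^ J := by positivity
  have p2 : 0 ≤ Z / (η * δ) := by positivity
  have p3 : 0 ≤ 2 / η := by positivity
  have hl1 : 3 / η ≤ ρ ^ J * Real.log B := by
    have : 3 / η / ρ ^ J ≤ Real.log B := by linarith
    rw [div_le_iff₀ hρJ] at this
    linarith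
  have hl2 : Z ≤ η * δ * Real.log B := by
    have : Z / (η * δ) ≤ Real.log B := by linarith
    rw [div_le_iff₀ (by positivity)] at this
    linarith
  have hl3 : 2 ≤ η * Real.log B := by
    have : 2 / η ≤ Real.log B := by linarith
    rw [div_le_iff₀ hη] at this
    linarith
  have hlB1 : 1 ≤ Real.log B := by
    rw [Real.le_log_iff_exp_le hB0]
    have := Real.exp_one_lt_d9
    linarith
  have hlB0 : 0 < Real.log B := by linarith
  have hx0 : 0 < (x : ℝ) := by linarith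
  have hx1 : 1 ≤ x := by
    have : 0 < x := by exact_mod_cast hx0
    omega
  have hx1r : (1 : ℝ) ≤ x := by exact_mod_cast hx1
  have hyJ : 3 / η ≤ ρ ^ J * x := hl1.trans (by gcongr)
  refine ⟨hyJ, ?_⟩
  have hxleB : (x : ℝ) ≤ B := by
    have : (x : ℝ) * 1 ≤ x * Real.log B ^ K :=
      mul_le_mul_of_nonneg_left (one_le_pow₀ hlB1) hx0.le
    linarith
  set M0 : ℝ := (1 - (2 * d + 6) * η) * (B / Real.log (3 * B * x)) with hM0
  set Df : Fin k → ℕ → ℝ := fun i t => max 0 (M0 * GG t - nn (lo η B) B (g i) t) with hDf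
  -- blocks
  have hind : ∀ i : Fin k, ∀ j : ℕ, j ≤ J →
      ∑ t ∈ T.filter (fun t : ℕ => ρ ^ j * (x : ℝ) < t), Df i t ≤
        j * (6 * (B * x / Real.log B ^ (k + 1))) := by
    intro i j
    induction j with
    | zero =>
      intro _
      have h0 : T.filter (fun t : ℕ => ρ ^ 0 * (x : ℝ) < t) = ∅ := by
        apply filter_eq_empty_iff.2
        intro t ht h
        have h1 := (mem_Icc.1 (hT ht)).2
        have h2 : (t : ℝ) ≤ x := by exact_mod_cast h1
        rw [pow_zero, one_mul] at h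
        linarith
      rw [h0]
      simp
    | succ j ih =>
      intro hj
      have ih' := ih (by omega)
      have hsplit : T.filter (fun t : ℕ => ρ ^ (j + 1) * (x : ℝ) < t) =
          T.filter (fun t : ℕ => ρ ^ j * (x : ℝ) < t) ∪
          T.filter (fun t : ℕ => ρ * (ρ ^ j * (x : ℝ)) < t ∧ (t : ℝ) ≤ ρ ^ j * x) := by
        ext t
        simp only [mem_filter, mem_union]
        have e1 : ρ ^ (j + 1) * (x : ℝ) = ρ * (ρ ^ j * x) := by ring
        constructor
        · rintro ⟨h1, h2⟩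
          rw [e1] at h2
          by_cases h3 : ρ ^ j * (x : ℝ) < t
          · exact Or.inl ⟨h1, h3⟩
          · exact Or.inr ⟨h1, h2, not_lt.1 h3⟩
        · rintro (⟨h1, h2⟩ | ⟨h1, h2, h3⟩)
          · refine ⟨h1, lt_of_le_of_lt ?_ h2⟩
            rw [e1]
            have : 0 ≤ ρ ^ j * (x : ℝ) := by positivity
            nlinarith
          · exact ⟨h1, by rw [e1]; exact h2⟩
      have hdisj : Disjoint (T.filter (fun t : ℕ => ρ ^ j * (x : ℝ) < t))
          (T.filter (fun t : ℕ => ρ * (ρ ^ j * (x : ℝ)) < t ∧ (t : ℝ) ≤ ρ ^ j * x)) := by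
        rw [disjoint_left]
        intro t h1 h2
        rw [mem_filter] at h1 h2
        linarith [h1.2, h2.2.2]
      have hρj : ρ ^ j ≤ 1 := pow_le_one₀ hρ0.le hρ1.le
      have hρjJ : ρ ^ J ≤ ρ ^ j := pow_le_pow_of_le_one hρ0.le hρ1.le (by omega)
      have hyx : ρ ^ j * (x : ℝ) ≤ x := by
        have := mul_le_mul_of_nonneg_right hρj hx0.le
        linarith
      have hy0 : 0 < ρ ^ j * (x : ℝ) := by positivity
      obtain ⟨hV, hcl⟩ := poly_var (hg i) hη (by linarith) hy0 hyx (hA i)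
      have hb := hblock B hB1 x (ρ ^ j * x)
        (∑ m ∈ Icc 1 d, (((g i).coeff m : ℤ) : ℝ) * (ρ ^ j * (x : ℝ)) ^ m)
        (fun t => (g i).eval (t : ℤ)) ((g i).coeff 0)
        (T.filter (fun t : ℕ => ρ * (ρ ^ j * (x : ℝ)) < t ∧ (t : ℝ) ≤ ρ ^ j * x))
        (hyJ.trans (by gcongr)) hyx
        (le_trans (mul_le_mul_of_nonneg_right hyx (by positivity)) hxB) (hcB i) hV
        (by
          intro t ht
          rw [mem_filter] at ht
          refine ⟨ht.2.1, ht.2.2, hTc t ht.1 i, ?_, hcl t ht.2.1 ht.2.2⟩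
          have h := Polynomial.sub_dvd_eval_sub (t : ℤ) 0 (g i)
          rw [sub_zero, ← Polynomial.coeff_zero_eq_eval_zero] at h
          exact h)
      rw [hsplit, sum_union hdisj]
      have herr : (B : ℝ) * (ρ ^ j * x) / Real.log B ^ (k + 1) ≤ B * x / Real.log B ^ (k + 1) := by
        gcongr
      have hb' : ∑ t ∈ T.filter (fun t : ℕ => ρ * (ρ ^ j * (x : ℝ)) < t ∧ (t : ℝ) ≤ ρ ^ j * x),
          Df i t ≤ 6 * (B * (ρ ^ j * x) / Real.log B ^ (k + 1)) := hb
      push_cast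
      linarith
  -- logs
  have hBx0 : 0 < (B : ℝ) * x := by positivity
  have hL1 : Real.log B ≤ Real.log (B * x) := by
    apply Real.log_le_log hB0
    have := mul_le_mul_of_nonneg_left hx1r hB0.le
    linarith
  have hL2 : Real.log (B * x) ≤ 2 * Real.log B := by
    rw [Real.log_mul hB0.ne' hx0.ne']
    have := Real.log_le_log hx0 hxleB
    linarith
  have hL0 : 0 < Real.log (B * x) := by linarith
  have hL3 : Real.log (3 * B * x) ≤ (1 + η) * Real.log (B * x) := by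
    have e1 : (3 : ℝ) * B * x = 3 * (B * x) := by ring
    rw [e1, Real.log_mul (by norm_num) hBx0.ne']
    have h2 : Real.log 3 ≤ 2 := by
      rw [Real.log_le_iff_le_exp (by norm_num)]
      have := Real.add_one_le_exp (2 : ℝ)
      linarith
    have h3 : 2 ≤ η * Real.log (B * x) := hl3.trans (by gcongr)
    linarith
  have hL4' : Real.log (B * x) ≤ Real.log (3 * B * x) := Real.log_le_log hBx0 (by linarith)
  have hL4 : 0 < Real.log (3 * B * x) := by linarith
  set Q : ℝ := B / Real.log (B * x) with hQ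
  have hQ0 : 0 < Q := by positivity
  have ha0 : 0 < 1 - (2 * (d : ℝ) + 6) * η := by linarith
  have hM0pos : 0 < M0 := by rw [hM0]; positivity
  have hM0low : (1 - (2 * d + 7) * η) * Q ≤ M0 := by
    have h1 : (1 - η) * Q ≤ B / Real.log (3 * B * x) := by
      rw [hQ, le_div_iff₀ hL4]
      calc (1 - η) * (B / Real.log (B * x)) * Real.log (3 * B * x)
          ≤ (1 - η) * (B / Real.log (B * x)) * ((1 + η) * Real.log (B * x)) := by
            apply mul_le_mul_of_nonneg_left hL3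
            apply mul_nonneg hρ0.le (by positivity)
        _ = (1 - η ^ 2) * B := by field_simp; ring
        _ ≤ B := by nlinarith [sq_nonneg η]
    rw [hM0]
    calc (1 - (2 * d + 7) * η) * Q ≤ (1 - (2 * d + 6) * η) * (1 - η) * Q := by
          apply mul_le_mul_of_nonneg_right _ hQ0.le
          have : 0 ≤ (2 * (d : ℝ) + 6) * η * η := by positivity
          linarith
      _ = (1 - (2 * d + 6) * η) * ((1 - η) * Q) := by ring
      _ ≤ _ := mul_le_mul_of_nonneg_left h1 ha0.le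
  have hM0up : M0 ≤ B / Real.log B := by
    rw [hM0]
    have h1 : (B : ℝ) / Real.log (3 * B * x) ≤ B / Real.log B :=
      div_le_div_of_nonneg_left hB0.le hlB0 (hL1.trans hL4')
    have h2 : 1 - (2 * (d : ℝ) + 6) * η ≤ 1 := by
      have : 0 ≤ (2 * (d : ℝ) + 6) * η := by positivity
      linarith
    calc (1 - (2 * d + 6) * η) * (B / Real.log (3 * B * x)) ≤ 1 * (B / Real.log B) := by
          apply mul_le_mul h2 h1 (by positivity) (by norm_num)
      _ = _ := one_mul _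
  -- product lower bound
  set T' := T.filter (fun t : ℕ => ρ ^ J * (x : ℝ) < t) with hT'
  have hprod : ∀ t ∈ T', M0 ^ k * GG t ^ k - (C₅ * B) ^ (k - 1) * ∑ i, Df i t ≤
      ∏ i, nn (lo η B) B (g i) t := by
    intro t ht
    have htT := (mem_filter.1 ht).1
    have ht1 := mem_Icc.1 (hT htT)
    have hGt : 0 < GG t := GG_pos (by omega)
    have hMt : 0 < M0 * GG t := by positivity
    have h1 := prod_lower (univ : Finset (Fin k)) (fun i => nn (lo η B) B (g i) t)
      (fun i => Df i t) (M0 * GG t) hMt (fun i _ => nn_nonneg _ _ _ _)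
      (fun i _ => le_max_left _ _) (fun i _ => by
        have : M0 * GG t - nn (lo η B) B (g i) t ≤ Df i t := le_max_right _ _
        linarith)
    rw [card_univ, Fintype.card_fin] at h1
    refine le_trans ?_ h1
    have e1 : M0 ^ k * GG t ^ k = (M0 * GG t) ^ k := (mul_pow _ _ _).symm
    rw [mul_sub, mul_one, e1, ← sum_div]
    apply sub_le_sub_left
    have hS0 : 0 ≤ ∑ i, Df i t := sum_nonneg fun i _ => le_max_left _ _
    have h2 : (M0 * GG t) ^ k * ((∑ i, Df i t) / (M0 * GG t)) = (M0 * GG t) ^ (k - 1) * ∑ i, Df i t := by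
      obtain ⟨m, rfl⟩ : ∃ m, k = m + 1 := ⟨k - 1, by omega⟩
      rw [Nat.add_sub_cancel, pow_succ]
      field_simp
    rw [h2]
    have h3 : M0 * GG t ≤ C₅ * B := by
      have h4 : GG t ≤ C₅ * Real.log B := by
        apply hcrude B t hB3 ht1.1
        have : (t : ℝ) ≤ B := le_trans (by exact_mod_cast ht1.2) hxleB
        exact_mod_cast this
      calc M0 * GG t ≤ (B / Real.log B) * (C₅ * Real.log B) :=
            mul_le_mul hM0up h4 hGt.le (by positivity)
        _ = C₅ * B := by field_simp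
    gcongr
  have hsumprod := sum_le_sum hprod
  rw [sum_sub_distrib, ← mul_sum, ← mul_sum] at hsumprod
  have hDfsum : ∑ t ∈ T', ∑ i, Df i t ≤ k * (J * (6 * (B * x / Real.log B ^ (k + 1)))) := by
    rw [sum_comm]
    calc _ ≤ ∑ _i : Fin k, (J : ℝ) * (6 * (B * x / Real.log B ^ (k + 1))) :=
          sum_le_sum fun i _ => hind i J le_rfl
      _ = _ := by rw [sum_const, card_univ, Fintype.card_fin, nsmul_eq_mul]
  -- small t
  set m : ℝ := ∑ t ∈ T, GG t ^ k with hm
  have hsm : ∑ t ∈ T.filter (fun t : ℕ => ¬ ρ ^ J * (x : ℝ) < t), GG t ^ k ≤ η * (δ * x) := by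
    have h1 : T.filter (fun t : ℕ => ¬ ρ ^ J * (x : ℝ) < t) ⊆ Icc 1 ⌊ρ ^ J * (x : ℝ)⌋₊ := by
      intro t ht
      rw [mem_filter] at ht
      rw [mem_Icc]
      exact ⟨(mem_Icc.1 (hT ht.1)).1, Nat.le_floor (not_lt.1 ht.2)⟩
    have h2 : ∑ t ∈ T.filter (fun t : ℕ => ¬ ρ ^ J * (x : ℝ) < t), GG t ^ k ≤
        ∑ t ∈ Icc 1 ⌊ρ ^ J * (x : ℝ)⌋₊, GG t ^ k :=
      sum_le_sum_of_subset_of_nonneg h1 fun t _ _ => pow_nonneg (GG_nonneg t) k
    have h3 : ((⌊ρ ^ J * (x : ℝ)⌋₊ : ℕ) : ℝ) ≤ ρ ^ J * x := Nat.floor_le (by positivity)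
    have h4 : C₁ * ρ ^ J ≤ η * δ := by
      rw [lt_div_iff₀ hC₁] at hJ
      linarith
    calc _ ≤ C₁ * ((⌊ρ ^ J * (x : ℝ)⌋₊ : ℕ) : ℝ) := h2.trans (hid _)
      _ ≤ C₁ * (ρ ^ J * x) := by gcongr
      _ = (C₁ * ρ ^ J) * x := by ring
      _ ≤ (η * δ) * x := by gcongr
      _ = _ := by ring
  have hmcard : δ * x ≤ m := by
    refine hTcard.trans ?_
    rw [hm, card_eq_sum_ones]
    push_cast
    apply sum_le_sum
    intro t ht
    exact one_le_pow₀ (one_le_GG (by have := (mem_Icc.1 (hT ht)).1; omega))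
  have hbig : (1 - η) * m ≤ ∑ t ∈ T', GG t ^ k := by
    have h1 := sum_filter_add_sum_filter_not T (fun t : ℕ => ρ ^ J * (x : ℝ) < t) (fun t => GG t ^ k)
    rw [← hm] at h1
    have h2 : η * (δ * x) ≤ η * m := by gcongr
    linarith
  have hm0 : 0 < m := lt_of_lt_of_le (by positivity) hmcard
  -- error
  have herr : (C₅ * B) ^ (k - 1) * (k * (J * (6 * (B * x / Real.log B ^ (k + 1))))) ≤
      η * (Q ^ k * m) := by
    have h1 : (C₅ * B) ^ (k - 1) * (k * (J * (6 * (B * x / Real.log B ^ (k + 1))))) =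
        (C₅ ^ (k - 1) * (6 * k * J)) * (B ^ k * x / Real.log B ^ (k + 1)) := by
      obtain ⟨n, rfl⟩ : ∃ n, k = n + 1 := ⟨k - 1, by omega⟩
      rw [Nat.add_sub_cancel, mul_pow, pow_succ (B : ℝ) n]
      ring
    have h2 : (B : ℝ) ^ k / (2 ^ k * Real.log B ^ k) ≤ Q ^ k := by
      rw [← mul_pow, ← div_pow]
      apply pow_le_pow_left₀ (by positivity)
      rw [hQ]
      gcongr
    have h3 : (C₅ ^ (k - 1) * (6 * k * J)) * (B ^ k * x / Real.log B ^ (k + 1)) =
        Z * ((B : ℝ) ^ k / (2 ^ k * Real.log B ^ k)) * x / Real.log B := by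
      rw [hZ, pow_succ (Real.log B)]
      field_simp
    rw [h1, h3]
    calc Z * ((B : ℝ) ^ k / (2 ^ k * Real.log B ^ k)) * x / Real.log B
        ≤ (η * δ * Real.log B) * Q ^ k * x / Real.log B := by gcongr
      _ = η * (Q ^ k * (δ * x)) := by field_simp
      _ ≤ η * (Q ^ k * m) := by gcongr
  have hmain : (1 - (k * (2 * d + 7) + 1) * η) * Q ^ k * m ≤ M0 ^ k * ∑ t ∈ T', GG t ^ k := by
    have hbase : 0 ≤ 1 - (2 * (d : ℝ) + 7) * η := by linarith
    have h1 : ((1 - (2 * d + 7) * η) * Q) ^ k ≤ M0 ^ k :=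
      pow_le_pow_left₀ (mul_nonneg hbase hQ0.le) hM0low k
    rw [mul_pow] at h1
    set q : ℝ := (1 - (2 * d + 7) * η) ^ k with hq
    have hq1 : q ≤ 1 := pow_le_one₀ hbase (by
      have : 0 ≤ (2 * (d : ℝ) + 7) * η := by positivity
      linarith)
    have hq0 : 0 ≤ q := pow_nonneg hbase k
    have hq2 : 1 - k * (2 * d + 7) * η ≤ q := by
      have := one_add_mul_le_pow (show (-2 : ℝ) ≤ -((2 * d + 7) * η) by linarith) k
      have e : 1 + (k : ℝ) * -((2 * d + 7) * η) = 1 - k * (2 * d + 7) * η := by ring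
      rw [e] at this
      have e2 : 1 + -((2 * (d : ℝ) + 7) * η) = 1 - (2 * d + 7) * η := by ring
      rwa [e2] at this
    calc (1 - (k * (2 * d + 7) + 1) * η) * Q ^ k * m ≤ (q * (1 - η)) * Q ^ k * m := by
          apply mul_le_mul_of_nonneg_right _ hm0.le
          apply mul_le_mul_of_nonneg_right _ (by positivity)
          have := mul_le_mul_of_nonneg_right hq1 hη.le
          linarith
      _ = (q * Q ^ k) * ((1 - η) * m) := by ring
      _ ≤ M0 ^ k * ((1 - η) * m) := by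
          apply mul_le_mul_of_nonneg_right h1
          exact mul_nonneg hρ0.le hm0.le
      _ ≤ M0 ^ k * ∑ t ∈ T', GG t ^ k := by gcongr
  have herr2 : (C₅ * B) ^ (k - 1) * ∑ t ∈ T', ∑ i, Df i t ≤ η * (Q ^ k * m) :=
    le_trans (by gcongr) herr
  have e3 : (1 - (k * (2 * d + 7) + 2) * η) * Q ^ k * m =
      (1 - (k * (2 * d + 7) + 1) * η) * Q ^ k * m - η * (Q ^ k * m) := by ring
  rw [e3]
  linarith

end Pool.Agent.W218.LF
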