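import Mathlib
import Pool.Agent.W218.LF.Pair

set_option autoImplicit false

/-! Second moment over the linear coefficients of `k` polynomials. -/

namespace Pool.Agent.W218.LF

open Finset Pool.Agent.Erdos456 Pool.Agent.Erdos456.Mert Pool.Agent.W218.HF

lemma prod_le_sum_pow {k : ℕ} (hk : 1 ≤ k) (v : Fin k → ℝ) (hv : ∀ i, 0 ≤ v i) :
    ∏ i, v i ≤ ∑ i, v i ^ k := by
  have : Nonempty (Fin k) := ⟨⟨0, hk⟩⟩
  obtain ⟨j, _, hj⟩ := Finset.exists_max_image (univ : Finset (Fin k)) v univ_nonempty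
  calc ∏ i, v i ≤ ∏ _i : Fin k, v j := prod_le_prod (fun i _ => hv i) fun i hi => hj i hi
    _ = v j ^ k := by rw [prod_const, card_univ, Fintype.card_fin]
    _ ≤ ∑ i, v i ^ k := single_le_sum (f := fun i => v i ^ k) (fun i _ => pow_nonneg (hv i) k) (mem_univ j)

lemma sum3_comm {k : ℕ} (S : Finset ℕ) (F : ℕ → ℕ → Fin k → ℝ) :
    ∑ a ∈ S, ∑ b ∈ S, ∑ i, F a b i = ∑ i, ∑ a ∈ S, ∑ b ∈ S, F a b i := by
  rw [Finset.sum_congr rfl fun a _ => Finset.sum_comm]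
  exact Finset.sum_comm

lemma amgm_pow {a b c : ℝ} (ha : 0 ≤ a) (hb : 0 ≤ b) (hc : 0 ≤ c) (k : ℕ) :
    ((a * b * c) ^ 2) ^ k ≤ a ^ (6 * k) + b ^ (6 * k) + c ^ (6 * k) := by
  set m := max a (max b c) with hm
  have h1 : a ≤ m := le_max_left _ _
  have h2 : b ≤ m := (le_max_left _ _).trans (le_max_right _ _)
  have h3 : c ≤ m := (le_max_right _ _).trans (le_max_right _ _)
  have hm0 : 0 ≤ m := ha.trans h1
  have h4 : ((a * b * c) ^ 2) ^ k ≤ m ^ (6 * k) := by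
    have h5 : a * b * c ≤ m ^ 3 := by
      calc a * b * c ≤ m * m * m := by gcongr
        _ = m ^ 3 := by ring
    calc ((a * b * c) ^ 2) ^ k ≤ ((m ^ 3) ^ 2) ^ k := by gcongr
      _ = m ^ (6 * k) := by rw [← pow_mul, ← pow_mul]; congr 1; ring
  have hu3 : 0 ≤ a ^ (6 * k) := by positivity
  have hv3 : 0 ≤ b ^ (6 * k) := by positivity
  have hw3 : 0 ≤ c ^ (6 * k) := by positivity
  have h5 : m ^ (6 * k) ≤ a ^ (6 * k) + b ^ (6 * k) + c ^ (6 * k) := by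
    rcases max_choice a (max b c) with h | h
    · rw [hm, h]; linarith
    · rcases max_choice b c with h' | h'
      · rw [hm, h, h']; linarith
      · rw [hm, h, h']; linarith
  exact h4.trans h5

/-- moment of the determinants for one polynomial -/
lemma det_moment (m d : ℕ) (hm : 1 ≤ m) (hd : 1 ≤ d) (δ : ℝ) (hδ : 0 < δ) : ∃ C : ℝ, 0 < C ∧
    ∀ (B x : ℕ) (g : Polynomial ℤ), 4 ≤ B → Real.log B ≤ x → g.natDegree ≤ d →
    g.coeff 0 ≠ 0 → δ * (g.coeff 0).natAbs ≤ Nat.totient (g.coeff 0).natAbs →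
    (∀ t ∈ Icc 1 x, |((g.eval (t : ℤ) : ℤ) : ℝ)| ≤ 2 * B * x) →
    ∑ t₁ ∈ Icc 1 x, ∑ t₂ ∈ Icc 1 x,
      GG ((t₁ : ℤ) * g.eval (t₂ : ℤ) - (t₂ : ℤ) * g.eval (t₁ : ℤ)).natAbs ^ m ≤ C * x ^ 2 := by
  obtain ⟨C₁, hC₁, h1⟩ := gmom_id m hm
  obtain ⟨C₂, hC₂, h2⟩ := gmom m d hm
  refine ⟨C₂ * (1 / δ) ^ m * C₁, by positivity, ?_⟩
  intro B x g hB hlog hg hc hδc hbd
  have hBr : (4 : ℝ) ≤ B := by exact_mod_cast hB
  have hlB : 0 < Real.log B := Real.log_pos (by linarith)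
  have hx0 : 0 < (x : ℝ) := lt_of_lt_of_le hlB hlog
  have hx1 : 1 ≤ x := by
    have : 0 < x := by exact_mod_cast hx0
    omega
  have hx1r : (1 : ℝ) ≤ x := by exact_mod_cast hx1
  have hBx : (B : ℝ) ≤ Real.exp x := by
    have := Real.exp_le_exp.2 hlog
    rwa [Real.exp_log (by linarith)] at this
  set c := g.coeff 0 with hcdef
  have hc0 : 0 < c.natAbs := Int.natAbs_pos.2 hc
  have hGc : GG c.natAbs ≤ 1 / δ := by
    unfold GG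
    have h2 : (0 : ℝ) < Nat.totient c.natAbs := by exact_mod_cast Nat.totient_pos.2 hc0
    rw [div_le_div_iff₀ h2 hδ]
    linarith
  have hinner : ∀ t₁ ∈ Icc 1 x, ∑ t₂ ∈ Icc 1 x,
      GG ((t₁ : ℤ) * g.eval (t₂ : ℤ) - (t₂ : ℤ) * g.eval (t₁ : ℤ)).natAbs ^ m ≤
      C₂ * (1 / δ) ^ m * x * GG t₁ ^ m := by
    intro t₁ ht₁
    have ht₁' := mem_Icc.1 ht₁
    have h3 := h2 x (fun t₂ => (t₁ : ℤ) * g.eval (t₂ : ℤ) - (t₂ : ℤ) * g.eval (t₁ : ℤ))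
      (t₁ * c.natAbs) hx1 (Nat.mul_pos (by omega) hc0) (by
        intro t ht
        have ht' := mem_Icc.1 ht
        have h4 : (((((t₁ : ℤ) * g.eval (t : ℤ) - (t : ℤ) * g.eval (t₁ : ℤ)).natAbs : ℕ)) : ℝ) =
            |(t₁ : ℝ) * ((g.eval (t : ℤ) : ℤ) : ℝ) - (t : ℝ) * ((g.eval (t₁ : ℤ) : ℤ) : ℝ)| := by
          rw [Nat.cast_natAbs]; push_cast; rfl
        rw [h4]
        have h5 : (t₁ : ℝ) ≤ x := by exact_mod_cast ht₁'.2
        have h6 : (t : ℝ) ≤ x := by exact_mod_cast ht'.2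
        have h7 : |(t₁ : ℝ) * ((g.eval (t : ℤ) : ℤ) : ℝ)| ≤ x * (2 * B * x) := by
          rw [abs_mul, abs_of_nonneg (Nat.cast_nonneg t₁)]
          exact mul_le_mul h5 (hbd t ht) (abs_nonneg _) hx0.le
        have h8 : |(t : ℝ) * ((g.eval (t₁ : ℤ) : ℤ) : ℝ)| ≤ x * (2 * B * x) := by
          rw [abs_mul, abs_of_nonneg (Nat.cast_nonneg t)]
          exact mul_le_mul h6 (hbd t₁ ht₁) (abs_nonneg _) hx0.le
        have h9 := abs_sub (t₁ * ((g.eval (t : ℤ) : ℤ) : ℝ)) (t * ((g.eval (t₁ : ℤ) : ℤ) : ℝ))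
        have h10 : (4 : ℝ) * x ^ 2 ≤ Real.exp (3 * x) := by
          have h11 : 1 + (x : ℝ) ≤ Real.exp x := by
            have := Real.add_one_le_exp (x : ℝ); linarith
          have h12 : Real.exp (3 * x) = Real.exp x ^ 3 := by
            rw [← Real.exp_nat_mul]; norm_num
          rw [h12]
          have h13 : (1 + (x : ℝ)) ^ 3 ≤ Real.exp x ^ 3 := pow_le_pow_left₀ (by linarith) h11 3
          nlinarith [sq_nonneg ((x : ℝ) - 1), mul_nonneg hx0.le (sq_nonneg ((x : ℝ) - 1))]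
        have h14 : Real.exp (4 * x) = Real.exp x * Real.exp (3 * x) := by
          rw [← Real.exp_add]; congr 1; ring
        have h15 : (B : ℝ) * (4 * x ^ 2) ≤ Real.exp x * Real.exp (3 * x) := by gcongr
        rw [h14]
        linarith) (by
        intro p hp hpd
        have h16 : ∀ t : ℕ, (t₁ : ℤ) * g.eval (t : ℤ) - (t : ℤ) * g.eval (t₁ : ℤ) =
            (Polynomial.C (t₁ : ℤ) * g - Polynomial.C (g.eval (t₁ : ℤ)) * Polynomial.X).eval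
              (t : ℤ) := by
          intro t
          simp only [Polynomial.eval_sub, Polynomial.eval_mul, Polynomial.eval_C,
            Polynomial.eval_X]
          ring
        have h17 : (Polynomial.C (t₁ : ℤ) * g -
            Polynomial.C (g.eval (t₁ : ℤ)) * Polynomial.X).natDegree ≤ d := by
          refine (Polynomial.natDegree_sub_le _ _).trans (max_le ?_ ?_)
          · exact (Polynomial.natDegree_C_mul_le _ _).trans hg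
          · refine (Polynomial.natDegree_C_mul_le _ _).trans ?_
            rw [Polynomial.natDegree_X]; exact hd
        have h18 : (Polynomial.C (t₁ : ℤ) * g -
            Polynomial.C (g.eval (t₁ : ℤ)) * Polynomial.X).coeff 0 = (t₁ : ℤ) * c := by
          rw [Polynomial.coeff_sub, Polynomial.coeff_C_mul, Polynomial.coeff_C_mul,
            Polynomial.coeff_X_zero]
          ring
        have h19 := poly_zeros (Polynomial.C (t₁ : ℤ) * g -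
            Polynomial.C (g.eval (t₁ : ℤ)) * Polynomial.X) d h17 p hp (by
          rw [h18, Int.natAbs_mul, Int.natAbs_natCast]; exact hpd)
        obtain ⟨Z, hZ1, hZ2, hZ3⟩ := h19
        refine ⟨Z, hZ1, hZ2, fun t ht => hZ3 t ?_⟩
        rw [← h16]; exact ht)
    refine h3.trans ?_
    have h20 : GG (t₁ * c.natAbs) ≤ GG t₁ * (1 / δ) :=
      (GG_mul_le _ _).trans (mul_le_mul_of_nonneg_left hGc (GG_nonneg _))
    calc C₂ * GG (t₁ * c.natAbs) ^ m * x ≤ C₂ * (GG t₁ * (1 / δ)) ^ m * x := by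
          have := GG_nonneg (t₁ * c.natAbs)
          gcongr
      _ = _ := by rw [mul_pow]; ring
  refine (sum_le_sum hinner).trans ?_
  rw [← mul_sum]
  have h21 := h1 x
  calc C₂ * (1 / δ) ^ m * x * ∑ t ∈ Icc 1 x, GG t ^ m ≤ C₂ * (1 / δ) ^ m * x * (C₁ * x) := by gcongr
    _ = _ := by ring

theorem second2 (k d : ℕ) (hk : 1 ≤ k) (hd : 1 ≤ d) (δ : ℝ) (hδ : 0 < δ) : ∃ C : ℝ, 0 < C ∧
    ∀ (B b1 x : ℕ) (g : Fin k → Polynomial ℤ) (T : Finset ℕ), 4 ≤ B → B ≤ b1 → 2 * b1 ≤ 3 * B →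
    Real.log B ^ k ≤ x → 1 ≤ Real.log B → (∀ i, (g i).natDegree ≤ d) →
    (∀ i, (g i).coeff 0 ≠ 0 ∧ δ * ((g i).coeff 0).natAbs ≤ Nat.totient ((g i).coeff 0).natAbs) →
    (∀ i, ∀ t ∈ Icc 1 x, |(((g i).eval (t : ℤ) : ℤ) : ℝ)| ≤ 2 * B * x) → T ⊆ Icc 1 x →
    (∀ t ∈ T, ∀ i, Nat.Coprime t ((g i).coeff 0).natAbs ∧ 0 ≤ (g i).eval (t : ℤ) + b1 * t) →
    ∑ b ∈ Fintype.piFinset (fun _ : Fin k => Ioc b1 (2 * B)),
      (∑ t ∈ T, ∏ i, pr ((g i).eval (t : ℤ) + b i * t)) ^ 2 ≤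
      C * (x ^ 2 * (B / Real.log B ^ 2) ^ k) := by
  classical
  obtain ⟨C₁, hC₁, hid⟩ := gmom_id k hk
  obtain ⟨C₂, hC₂, hid6⟩ := gmom_id (6 * k) (by omega)
  obtain ⟨C₃, hC₃, hdet⟩ := det_moment (6 * k) d (by omega) hd δ hδ
  obtain ⟨C₄, hC₄, hpair⟩ := pair_count
  refine ⟨40 ^ k * C₁ + C₄ ^ k * (k * (2 * C₂ + C₃)), by positivity, ?_⟩
  intro B b1 x g T hB hb1 hb2 hlog hlB1 hg hgc hgb hT hTc
  have hBr : (4 : ℝ) ≤ B := by exact_mod_cast hB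
  have hlB0 : 0 < Real.log B := by linarith
  have hlogx : Real.log B ≤ x := (le_self_pow₀ hlB1 (by omega)).trans hlog
  set Q : ℝ := B / Real.log B ^ 2 with hQ
  have hQ0 : 0 ≤ Q := by positivity
  have hdvd : ∀ (i : Fin k) (t : ℕ), (t : ℤ) ∣ (g i).eval (t : ℤ) - (g i).coeff 0 := by
    intro i t
    have h := Polynomial.sub_dvd_eval_sub (t : ℤ) 0 (g i)
    rw [sub_zero, ← Polynomial.coeff_zero_eq_eval_zero] at h
    exact h
  -- expand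
  have hexp : ∑ b ∈ Fintype.piFinset (fun _ : Fin k => Ioc b1 (2 * B)),
      (∑ t ∈ T, ∏ i, pr ((g i).eval (t : ℤ) + b i * t)) ^ 2 =
      ∑ t₁ ∈ T, ∑ t₂ ∈ T, ∏ i, ∑ β ∈ Ioc b1 (2 * B),
        pr ((g i).eval (t₁ : ℤ) + β * t₁) * pr ((g i).eval (t₂ : ℤ) + β * t₂) := by
    have h1 : ∀ b : Fin k → ℕ, (∑ t ∈ T, ∏ i, pr ((g i).eval (t : ℤ) + b i * t)) ^ 2 =
        ∑ t₁ ∈ T, ∑ t₂ ∈ T, ∏ i, (pr ((g i).eval (t₁ : ℤ) + b i * t₁) *
          pr ((g i).eval (t₂ : ℤ) + b i * t₂)) := by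
      intro b
      rw [sq, sum_mul_sum]
      apply sum_congr rfl
      intro t₁ _
      apply sum_congr rfl
      intro t₂ _
      rw [prod_mul_distrib]
    rw [sum_congr rfl fun b _ => h1 b, sum_comm]
    apply sum_congr rfl
    intro t₁ _
    rw [sum_comm]
    apply sum_congr rfl
    intro t₂ _
    rw [Finset.prod_univ_sum]
  rw [hexp]
  have hterm : ∀ t₁ ∈ T, ∀ t₂ ∈ T, ∏ i, ∑ β ∈ Ioc b1 (2 * B),
        pr ((g i).eval (t₁ : ℤ) + β * t₁) * pr ((g i).eval (t₂ : ℤ) + β * t₂) ≤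
      (if t₁ = t₂ then 40 ^ k * GG t₁ ^ k * (x * Q ^ k) else 0) +
      C₄ ^ k * Q ^ k * ∑ i, (GG t₁ ^ (6 * k) + GG t₂ ^ (6 * k) +
        GG ((t₁ : ℤ) * (g i).eval (t₂ : ℤ) - (t₂ : ℤ) * (g i).eval (t₁ : ℤ)).natAbs ^ (6 * k)) := by
    intro t₁ h₁ t₂ h₂
    have ht₁ := mem_Icc.1 (hT h₁)
    have ht₂ := mem_Icc.1 (hT h₂)
    have hoff0 : 0 ≤ C₄ ^ k * Q ^ k * ∑ i, (GG t₁ ^ (6 * k) + GG t₂ ^ (6 * k) +
        GG ((t₁ : ℤ) * (g i).eval (t₂ : ℤ) - (t₂ : ℤ) * (g i).eval (t₁ : ℤ)).natAbs ^ (6 * k)) := by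
      have a1 := GG_nonneg t₁
      have a2 := GG_nonneg t₂
      refine mul_nonneg (by positivity) (sum_nonneg fun i _ => ?_)
      have a3 := GG_nonneg ((t₁ : ℤ) * (g i).eval (t₂ : ℤ) - (t₂ : ℤ) * (g i).eval (t₁ : ℤ)).natAbs
      positivity
    by_cases h12 : t₁ = t₂
    · subst h12
      rw [if_pos rfl]
      have h3 : ∏ i, ∑ β ∈ Ioc b1 (2 * B),
          pr ((g i).eval (t₁ : ℤ) + β * t₁) * pr ((g i).eval (t₁ : ℤ) + β * t₁) ≤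
          ∏ _i : Fin k, (40 * GG t₁ * (B / Real.log B)) := by
        apply prod_le_prod
        · intro i _
          exact sum_nonneg fun β _ => mul_nonneg (pr_nonneg _) (pr_nonneg _)
        · intro i _
          have h4 := single_count hB hb1 hb2 (t := t₁) (G := (g i).eval (t₁ : ℤ)) ht₁.1 (hTc t₁ h₁ i).2
          refine le_trans (le_of_eq ?_) h4
          exact sum_congr rfl fun β _ => pr_sq _
      rw [prod_const, card_univ, Fintype.card_fin] at h3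
      have h5 : (40 * GG t₁ * (B / Real.log B)) ^ k = 40 ^ k * GG t₁ ^ k * (Real.log B ^ k * Q ^ k) := by
        rw [← mul_pow, ← mul_pow, ← mul_pow]
        congr 1
        rw [hQ]; field_simp
      have h6 : 40 ^ k * GG t₁ ^ k * (Real.log B ^ k * Q ^ k) ≤ 40 ^ k * GG t₁ ^ k * (x * Q ^ k) := by
        have := GG_nonneg t₁
        gcongr
      linarith
    · rw [if_neg h12, zero_add]
      have h3 : ∏ i, ∑ β ∈ Ioc b1 (2 * B),
          pr ((g i).eval (t₁ : ℤ) + β * t₁) * pr ((g i).eval (t₂ : ℤ) + β * t₂) ≤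
          ∏ i : Fin k, (C₄ * Q * (GG t₁ * GG t₂ * GG ((t₁ : ℤ) * (g i).eval (t₂ : ℤ) -
            (t₂ : ℤ) * (g i).eval (t₁ : ℤ)).natAbs) ^ 2) := by
        apply prod_le_prod
        · intro i _
          exact sum_nonneg fun β _ => mul_nonneg (pr_nonneg _) (pr_nonneg _)
        · intro i _
          have h4 := hpair B b1 t₁ t₂ ((g i).eval (t₁ : ℤ)) ((g i).eval (t₂ : ℤ)) ((g i).coeff 0)
            hB hb1 hb2 ht₁.1 ht₂.1 h12 (hdvd i t₁) (hdvd i t₂) (hTc t₁ h₁ i).1 (hTc t₂ h₂ i).1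
            (hTc t₁ h₁ i).2 (hTc t₂ h₂ i).2
          refine h4.trans (le_of_eq ?_)
          ring
      rw [prod_mul_distrib, prod_const, card_univ, Fintype.card_fin, mul_pow] at h3
      refine h3.trans ?_
      apply mul_le_mul_of_nonneg_left _ (by positivity)
      refine (prod_le_sum_pow hk _ fun i => sq_nonneg _).trans ?_
      apply sum_le_sum
      intro i _
      exact amgm_pow (GG_nonneg _) (GG_nonneg _) (GG_nonneg _) k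
  -- sum up
  have hall : ∑ t₁ ∈ T, ∑ t₂ ∈ T, ∏ i, ∑ β ∈ Ioc b1 (2 * B),
        pr ((g i).eval (t₁ : ℤ) + β * t₁) * pr ((g i).eval (t₂ : ℤ) + β * t₂) ≤
      ∑ t₁ ∈ Icc 1 x, (40 ^ k * GG t₁ ^ k * (x * Q ^ k)) +
      ∑ t₁ ∈ Icc 1 x, ∑ t₂ ∈ Icc 1 x, C₄ ^ k * Q ^ k * ∑ i, (GG t₁ ^ (6 * k) + GG t₂ ^ (6 * k) +
        GG ((t₁ : ℤ) * (g i).eval (t₂ : ℤ) - (t₂ : ℤ) * (g i).eval (t₁ : ℤ)).natAbs ^ (6 * k)) := by
    have h1 := sum_le_sum fun t₁ h₁ => sum_le_sum fun t₂ h₂ => hterm t₁ h₁ t₂ h₂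
    refine h1.trans ?_
    simp only [sum_add_distrib]
    have hnn : ∀ t₁ t₂ : ℕ, 0 ≤ C₄ ^ k * Q ^ k * (∑ i : Fin k, GG t₁ ^ (6 * k) +
        ∑ i : Fin k, GG t₂ ^ (6 * k) + ∑ i, GG ((t₁ : ℤ) * (g i).eval (t₂ : ℤ) -
          (t₂ : ℤ) * (g i).eval (t₁ : ℤ)).natAbs ^ (6 * k)) := by
      intro t₁ t₂
      have a1 := GG_nonneg t₁
      have a2 := GG_nonneg t₂
      have a3 : 0 ≤ ∑ i, GG ((t₁ : ℤ) * (g i).eval (t₂ : ℤ) -
          (t₂ : ℤ) * (g i).eval (t₁ : ℤ)).natAbs ^ (6 * k) :=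
        sum_nonneg fun i _ => pow_nonneg (GG_nonneg _) _
      positivity
    apply add_le_add
    · have h2 : ∀ t₁ ∈ T, ∑ t₂ ∈ T, (if t₁ = t₂ then 40 ^ k * GG t₁ ^ k * (x * Q ^ k) else 0) =
          40 ^ k * GG t₁ ^ k * (x * Q ^ k) := by
        intro t₁ h₁
        rw [sum_ite_eq, if_pos h₁]
      rw [sum_congr rfl h2]
      apply sum_le_sum_of_subset_of_nonneg hT
      intro t _ _
      have := GG_nonneg t
      positivity
    · refine (sum_le_sum_of_subset_of_nonneg hT fun t₁ _ _ => sum_nonneg fun t₂ _ => hnn t₁ t₂).trans ?_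
      apply sum_le_sum
      intro t₁ _
      exact sum_le_sum_of_subset_of_nonneg hT fun t₂ _ _ => hnn t₁ t₂
  have hdiag : ∑ t₁ ∈ Icc 1 x, (40 ^ k * GG t₁ ^ k * (x * Q ^ k)) ≤
      40 ^ k * C₁ * (x ^ 2 * Q ^ k) := by
    rw [← sum_mul, ← mul_sum]
    have h2 := hid x
    calc (40 ^ k * ∑ t ∈ Icc 1 x, GG t ^ k) * (x * Q ^ k)
        ≤ (40 ^ k * (C₁ * x)) * (x * Q ^ k) := by gcongr
      _ = _ := by ring
  have hoff : ∑ t₁ ∈ Icc 1 x, ∑ t₂ ∈ Icc 1 x, C₄ ^ k * Q ^ k * ∑ i, (GG t₁ ^ (6 * k) +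
        GG t₂ ^ (6 * k) + GG ((t₁ : ℤ) * (g i).eval (t₂ : ℤ) -
          (t₂ : ℤ) * (g i).eval (t₁ : ℤ)).natAbs ^ (6 * k)) ≤
      C₄ ^ k * (k * (2 * C₂ + C₃)) * (x ^ 2 * Q ^ k) := by
    have h1 : ∑ t₁ ∈ Icc 1 x, ∑ t₂ ∈ Icc 1 x, ∑ i : Fin k, (GG t₁ ^ (6 * k) +
        GG t₂ ^ (6 * k) + GG ((t₁ : ℤ) * (g i).eval (t₂ : ℤ) -
          (t₂ : ℤ) * (g i).eval (t₁ : ℤ)).natAbs ^ (6 * k)) ≤ k * (2 * C₂ + C₃) * x ^ 2 := by
      have e1 : ∑ t₁ ∈ Icc 1 x, ∑ t₂ ∈ Icc 1 x, ∑ i : Fin k, (GG t₁ ^ (6 * k) +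
        GG t₂ ^ (6 * k) + GG ((t₁ : ℤ) * (g i).eval (t₂ : ℤ) -
          (t₂ : ℤ) * (g i).eval (t₁ : ℤ)).natAbs ^ (6 * k)) =
          ∑ i : Fin k, ∑ t₁ ∈ Icc 1 x, ∑ t₂ ∈ Icc 1 x, (GG t₁ ^ (6 * k) +
        GG t₂ ^ (6 * k) + GG ((t₁ : ℤ) * (g i).eval (t₂ : ℤ) -
          (t₂ : ℤ) * (g i).eval (t₁ : ℤ)).natAbs ^ (6 * k)) := by
        exact sum3_comm (Icc 1 x) (fun t₁ t₂ i => GG t₁ ^ (6 * k) +
          GG t₂ ^ (6 * k) + GG ((t₁ : ℤ) * (g i).eval (t₂ : ℤ) -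
            (t₂ : ℤ) * (g i).eval (t₁ : ℤ)).natAbs ^ (6 * k))
      rw [e1]
      have h2 : ∀ i : Fin k, ∑ t₁ ∈ Icc 1 x, ∑ t₂ ∈ Icc 1 x, (GG t₁ ^ (6 * k) +
        GG t₂ ^ (6 * k) + GG ((t₁ : ℤ) * (g i).eval (t₂ : ℤ) -
          (t₂ : ℤ) * (g i).eval (t₁ : ℤ)).natAbs ^ (6 * k)) ≤ (2 * C₂ + C₃) * x ^ 2 := by
        intro i
        simp only [sum_add_distrib]
        have h3 := hdet B x (g i) hB hlogx (hg i) (hgc i).1 (hgc i).2 (hgb i)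
        have h4 := hid6 x
        rw [sum_const, nsmul_eq_mul, Nat.card_Icc, Nat.add_sub_cancel]
        have h5 : ∑ t₁ ∈ Icc 1 x, ∑ _t₂ ∈ Icc 1 x, GG t₁ ^ (6 * k) =
            x * ∑ t₁ ∈ Icc 1 x, GG t₁ ^ (6 * k) := by
          rw [mul_sum]
          apply sum_congr rfl
          intro t₁ _
          rw [sum_const, nsmul_eq_mul, Nat.card_Icc, Nat.add_sub_cancel]
        rw [h5]
        have h6 : (x : ℝ) * ∑ t₁ ∈ Icc 1 x, GG t₁ ^ (6 * k) ≤ x * (C₂ * x) := by gcongr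
        linarith [h6, h3]
      calc _ ≤ ∑ _i : Fin k, (2 * C₂ + C₃) * (x : ℝ) ^ 2 := sum_le_sum fun i _ => h2 i
        _ = _ := by rw [sum_const, card_univ, Fintype.card_fin, nsmul_eq_mul]; ring
    have e2 : ∑ t₁ ∈ Icc 1 x, ∑ t₂ ∈ Icc 1 x, C₄ ^ k * Q ^ k * ∑ i, (GG t₁ ^ (6 * k) +
        GG t₂ ^ (6 * k) + GG ((t₁ : ℤ) * (g i).eval (t₂ : ℤ) -
          (t₂ : ℤ) * (g i).eval (t₁ : ℤ)).natAbs ^ (6 * k)) =
        C₄ ^ k * Q ^ k * ∑ t₁ ∈ Icc 1 x, ∑ t₂ ∈ Icc 1 x, ∑ i, (GG t₁ ^ (6 * k) +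
        GG t₂ ^ (6 * k) + GG ((t₁ : ℤ) * (g i).eval (t₂ : ℤ) -
          (t₂ : ℤ) * (g i).eval (t₁ : ℤ)).natAbs ^ (6 * k)) := by
      simp only [mul_sum]
    rw [e2]
    calc _ ≤ C₄ ^ k * Q ^ k * (k * (2 * C₂ + C₃) * x ^ 2) := by gcongr
      _ = _ := by ring
  calc _ ≤ 40 ^ k * C₁ * (x ^ 2 * Q ^ k) + C₄ ^ k * (k * (2 * C₂ + C₃)) * (x ^ 2 * Q ^ k) :=
        hall.trans (add_le_add hdiag hoff)
    _ = _ := by ring

end Pool.Agent.W218.LF
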