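import Mathlib
import Pool.Agent.W218.LF.FirstTotal3
import Pool.Agent.W218.LF.Second2

set_option autoImplicit false

/-! The main theorem on the linear coefficients of `k` polynomials. -/

namespace Pool.Agent.W218.LF

open Finset Pool.Agent.Erdos456 Pool.Agent.Erdos456.Mert Pool.Agent.W218.HF

/-- the `t ∈ T` for which all `g_i(t) + b_i t` have no prime factor `≤ z` -/
noncomputable def roughT (z : ℕ) {k : ℕ} (g : Fin k → Polynomial ℤ) (b : Fin k → ℕ)
    (T : Finset ℕ) : ℕ :=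
  (T.filter (fun t : ℕ => ∀ i, ∀ p ≤ z, p.Prime → ¬ ((p : ℤ) ∣ (g i).eval (t : ℤ) + b i * t))).card

/-- the number of `t ∈ T` for which all `g_i(t) + b_i t` are prime -/
noncomputable def primeT {k : ℕ} (g : Fin k → Polynomial ℤ) (b : Fin k → ℕ) (T : Finset ℕ) : ℕ :=
  (T.filter (fun t : ℕ => ∀ i, ((g i).eval (t : ℤ) + b i * t).toNat.Prime)).card

/-- the indicator of the integers without prime factor `≤ z` -/
noncomputable def ro (z : ℕ) (n : ℤ) : ℝ :=
  open Classical in if ∀ p ≤ z, p.Prime → ¬ ((p : ℤ) ∣ n) then 1 else 0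

lemma ro_nonneg (z : ℕ) (n : ℤ) : 0 ≤ ro z n := by unfold ro; split_ifs <;> norm_num

lemma primeT_eq {k : ℕ} (g : Fin k → Polynomial ℤ) (b : Fin k → ℕ) (T : Finset ℕ) :
    (primeT g b T : ℝ) = ∑ t ∈ T, ∏ i, pr ((g i).eval (t : ℤ) + b i * t) := by
  classical
  unfold primeT
  rw [card_filter]
  push_cast
  apply sum_congr rfl
  intro t _
  by_cases h : ∀ i, ((g i).eval (t : ℤ) + b i * t).toNat.Prime
  · rw [if_pos h]
    symm
    apply prod_eq_one
    intro i _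
    unfold pr
    rw [if_pos (h i)]
  · rw [if_neg h]
    push Not at h
    obtain ⟨i, hi⟩ := h
    symm
    apply prod_eq_zero (mem_univ i)
    unfold pr
    rw [if_neg hi]

lemma roughT_eq (z : ℕ) {k : ℕ} (g : Fin k → Polynomial ℤ) (b : Fin k → ℕ) (T : Finset ℕ) :
    (roughT z g b T : ℝ) = ∑ t ∈ T, ∏ i, ro z ((g i).eval (t : ℤ) + b i * t) := by
  classical
  unfold roughT
  rw [card_filter]
  push_cast
  apply sum_congr rfl
  intro t _
  by_cases h : ∀ i, ∀ p ≤ z, p.Prime → ¬ ((p : ℤ) ∣ (g i).eval (t : ℤ) + b i * t)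
  · rw [if_pos h]
    symm
    apply prod_eq_one
    intro i _
    unfold ro
    rw [if_pos (h i)]
  · rw [if_neg h]
    push Not at h
    obtain ⟨i, hi⟩ := h
    symm
    apply prod_eq_zero (mem_univ i)
    unfold ro
    rw [if_neg]
    push Not
    exact hi

lemma ro_sum (z B t : ℕ) (G : ℤ) (ht : 0 < t) :
    (∑ β ∈ Ioc B (2 * B), ro z (G + β * t)) / Wz z ≤ (B + Pz z) * GG t := by
  classical
  have h1 := sieve_avg 0 t B z (G + B * t) ht
  refine le_trans (le_of_eq ?_) h1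
  congr 1
  rw [ioc_image, sum_image (fun n _ m _ h => by
      have h' : B + n = B + m := h
      omega)]
  have e : 2 * B - B = B := by omega
  rw [e, card_filter]
  push_cast
  apply sum_congr rfl
  intro b _
  unfold ro
  have e2 : G + ((B : ℤ) + (b : ℤ)) * t = 0 * (t : ℤ) ^ 2 + b * t + (G + B * t) := by ring
  rw [e2]

lemma pow_le_lin {ε : ℝ} (h0 : 0 ≤ ε) (h1 : ε ≤ 1) (k : ℕ) : (1 + ε) ^ k ≤ 1 + 2 ^ k * ε := by
  have h3 : (1 + ε) ^ k ≤ 1 + (2 ^ k - 1) * ε := by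
    induction k with
    | zero => simp
    | succ m ih =>
      have h2m : (1 : ℝ) ≤ 2 ^ m := one_le_pow₀ (by norm_num)
      calc (1 + ε) ^ (m + 1) = (1 + ε) ^ m * (1 + ε) := by ring
        _ ≤ (1 + (2 ^ m - 1) * ε) * (1 + ε) := mul_le_mul_of_nonneg_right ih (by linarith)
        _ = 1 + 2 ^ m * ε + (2 ^ m - 1) * (ε * ε) := by ring
        _ ≤ 1 + 2 ^ m * ε + (2 ^ m - 1) * (ε * 1) := by
            have := mul_le_mul_of_nonneg_left h1 h0
            have := mul_le_mul_of_nonneg_left this (show (0 : ℝ) ≤ 2 ^ m - 1 by linarith)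
            linarith
        _ = _ := by ring
  linarith

theorem main2 (k : ℕ) (hk : 1 ≤ k) : ∃ K : ℕ, ∀ d : ℕ, 1 ≤ d → ∀ δ : ℝ, 0 < δ → ∀ θ : ℝ, θ < 1 →
    ∃ η : ℝ, 0 < η ∧ ∃ B0 : ℕ, ∀ B : ℕ, B0 ≤ B → ∀ z : ℕ, Pz z ≤ η * B →
    ∀ (x : ℕ) (g : Fin k → Polynomial ℤ) (T : Finset ℕ), (∀ i, (g i).natDegree ≤ d) →
    (∀ i, (g i).coeff 0 ≠ 0 ∧ ((g i).coeff 0).natAbs ≤ B ∧
      δ * ((g i).coeff 0).natAbs ≤ Nat.totient ((g i).coeff 0).natAbs) →
    (∀ i, ∑ j ∈ Icc 1 d, |(((g i).coeff j : ℤ) : ℝ)| * (x : ℝ) ^ (j - 1) ≤ B) →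
    Real.log B ^ k ≤ x → x * Real.log B ^ K ≤ B → T ⊆ Icc 1 x →
    (∀ t ∈ T, ∀ i, Nat.Coprime t ((g i).coeff 0).natAbs) → δ * x ≤ T.card →
    η * B ^ k ≤ ((((Fintype.piFinset (fun _ : Fin k => Ioc B (2 * B))).filter (fun b =>
      θ * (roughT z g b T / Wz z ^ k) / Real.log (B * x) ^ k ≤ primeT g b T ∧
      η * x / Real.log B ^ k ≤ primeT g b T)).card : ℕ) : ℝ) := by
  classical
  obtain ⟨K, hfirst⟩ := first_total2 k hk
  refine ⟨K, ?_⟩
  intro d hd δ hδ θ hθ
  obtain ⟨C₂, hC₂, hsecond⟩ := second2 k d hk hd δ hδ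
  have hkr : (1 : ℝ) ≤ k := by exact_mod_cast hk
  have hdr : (1 : ℝ) ≤ d := by exact_mod_cast hd
  set θ₀ : ℝ := max θ 0 with hθ₀
  have hθ0 : 0 ≤ θ₀ := le_max_right _ _
  have hθ1 : θ₀ < 1 := max_lt hθ one_pos
  have hθθ : θ ≤ θ₀ := le_max_left _ _
  set κ : ℝ := 1 - θ₀ with hκ
  have hκ0 : 0 < κ := by rw [hκ]; linarith
  have hκ1 : κ ≤ 1 := by rw [hκ]; linarith
  set a : ℝ := k * (2 * d + 7) + 2 with ha
  have ha0 : 2 * (d : ℝ) + 6 ≤ a := by
    rw [ha]
    have : 1 * (2 * (d : ℝ) + 7) ≤ k * (2 * d + 7) := mul_le_mul_of_nonneg_right hkr (by linarith)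
    linarith
  have hapos : 0 < a := by linarith
  set η₀ : ℝ := κ / (8 * a) with hη₀
  have hη0 : 0 < η₀ := by positivity
  have haη : a * η₀ = κ / 8 := by rw [hη₀]; field_simp
  have hη18 : (2 * (d : ℝ) + 6) * η₀ ≤ 1 / 8 := by
    have := mul_le_mul_of_nonneg_right ha0 hη0.le
    linarith
  have hη48 : η₀ ≤ 1 / 48 := by nlinarith
  obtain ⟨J, B₁, hfirst⟩ := hfirst d η₀ hη0 hη18 δ hδ
  set η₁ : ℝ := δ * κ / (8 * 2 ^ k) with hη₁
  have hη10 : 0 < η₁ := by positivity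
  refine ⟨min (κ / (8 * 2 ^ k)) (min η₁ (κ ^ 2 * δ ^ 2 / (4 * 4 ^ k) / C₂)), by positivity, ?_⟩
  set ηf : ℝ := min (κ / (8 * 2 ^ k)) (min η₁ (κ ^ 2 * δ ^ 2 / (4 * 4 ^ k) / C₂)) with hηf
  refine ⟨max B₁ 4, ?_⟩
  intro B hB z hBP x g T hg hc hA hlogk hxB hT hTc hTcard
  have hB1 : B₁ ≤ B := (le_max_left _ _).trans hB
  have hB4 : 4 ≤ B := (le_max_right _ _).trans hB
  have hBr : (4 : ℝ) ≤ B := by exact_mod_cast hB4
  have hB0 : (0 : ℝ) < B := by linarith
  have hlB : 1 ≤ Real.log B := by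
    rw [Real.le_log_iff_exp_le hB0]
    have := Real.exp_one_lt_d9
    linarith
  have hlB0 : 0 < Real.log B := by linarith
  have hlog : Real.log B ≤ x := (le_self_pow₀ hlB (by omega)).trans hlogk
  have hx0 : 0 < (x : ℝ) := by linarith
  have hx1 : 1 ≤ x := by
    have : 0 < x := by exact_mod_cast hx0
    omega
  have hx1r : (1 : ℝ) ≤ x := by exact_mod_cast hx1
  have hxleB : (x : ℝ) ≤ B := by
    have : (x : ℝ) * 1 ≤ x * Real.log B ^ K :=
      mul_le_mul_of_nonneg_left (one_le_pow₀ hlB) hx0.le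
    linarith
  set L : ℝ := Real.log (B * x) with hL
  have hL1 : Real.log B ≤ L := by
    apply Real.log_le_log hB0
    have := mul_le_mul_of_nonneg_left hx1r hB0.le
    linarith
  have hL2 : L ≤ 2 * Real.log B := by
    rw [hL, Real.log_mul hB0.ne' hx0.ne']
    have := Real.log_le_log hx0 hxleB
    linarith
  have hL0 : 0 < L := by linarith
  obtain ⟨hJx, hF⟩ := hfirst B hB1 x g T hlog hxB hg (fun i => (hc i).2.1) hA hT hTc hTcard
  set b1 : ℕ := lo η₀ B with hb1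
  set T' : Finset ℕ := T.filter (fun t : ℕ => (1 - η₀) ^ J * (x : ℝ) < t) with hT'
  set m : ℝ := ∑ t ∈ T, GG t ^ k with hm
  have hb1le : (b1 : ℝ) ≤ (1 + η₀) * B := Nat.floor_le (by positivity)
  have hb1lt : (1 + η₀) * B < b1 + 1 := Nat.lt_floor_add_one _
  have hb1B : B ≤ b1 := by
    apply Nat.le_floor
    have : 0 ≤ η₀ * (B : ℝ) := by positivity
    linarith
  have hb12 : 2 * b1 ≤ 3 * B := by
    have : (2 : ℝ) * b1 ≤ 3 * B := by nlinarith
    exact_mod_cast this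
  have hT'sub : T' ⊆ T := filter_subset _ _
  -- bound for the values
  have hval : ∀ i, ∀ t ∈ Icc 1 x, |(((g i).eval (t : ℤ) : ℤ) : ℝ)| ≤ B + B * t := by
    intro i t ht
    have ht' := mem_Icc.1 ht
    have ht1 : (0 : ℝ) < t := by exact_mod_cast ht'.1
    have htx : (t : ℝ) ≤ x := by exact_mod_cast ht'.2
    obtain ⟨h1, h2⟩ := poly_var (hg i) (η := 1) one_pos le_rfl ht1 htx (hA i)
    have h3 := (poly_var (hg i) (η := 1) one_pos le_rfl ht1 htx (hA i)).2 t (by linarith) le_rfl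
    have h4 : (((g i).eval (t : ℤ) : ℤ) : ℝ) - (g i).coeff 0 =
        ∑ j ∈ Icc 1 d, (((g i).coeff j : ℤ) : ℝ) * (t : ℝ) ^ j := by
      have h5 := Polynomial.eval_eq_sum_range' (show (g i).natDegree < d + 1 by
        have := hg i; omega) (t : ℤ)
      rw [h5, sum_range_succ']
      push_cast
      simp only [pow_zero, mul_one, add_sub_cancel_right]
      have h6 : Icc 1 d = (range d).image (fun i => i + 1) := by
        ext j
        simp only [mem_Icc, mem_image, mem_range]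
        constructor
        · intro h; exact ⟨j - 1, by omega, by omega⟩
        · rintro ⟨i, hi, rfl⟩; omega
      rw [h6, sum_image (fun a _ b _ h => by
        have h' : a + 1 = b + 1 := h
        omega)]
    have hcabs : |(((g i).coeff 0 : ℤ) : ℝ)| ≤ B := by
      have : ((((g i).coeff 0).natAbs : ℕ) : ℝ) = |(((g i).coeff 0 : ℤ) : ℝ)| :=
        Nat.cast_natAbs _ |>.trans (by push_cast; rfl)
      rw [← this]; exact_mod_cast (hc i).2.1
    rw [← h4] at h1
    have h7 := abs_sub_abs_le_abs_sub ((((g i).eval (t : ℤ) : ℤ) : ℝ)) ((((g i).coeff 0 : ℤ) : ℝ))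
    linarith
  -- second moment
  have hS := hsecond B b1 x g T' hB4 hb1B hb12 hlogk hlB hg (fun i => ⟨(hc i).1, (hc i).2.2⟩)
    (fun i t ht => by
      have h1 := hval i t ht
      have htx : (t : ℝ) ≤ x := by exact_mod_cast (mem_Icc.1 ht).2
      have h2 : (B : ℝ) * t ≤ B * x := by gcongr
      have h3 : (B : ℝ) * 1 ≤ B * x := by gcongr
      linarith) (hT'sub.trans hT) (by
    intro t ht i
    have ht' := mem_filter.1 ht
    have h1 : 3 / η₀ < t := lt_of_le_of_lt hJx ht'.2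
    have h2 : 3 < η₀ * t := by
      rw [div_lt_iff₀ hη0] at h1; linarith
    refine ⟨hTc t ht'.1 i, ?_⟩
    have htI := hT ht'.1
    have h3 := (abs_le.1 (hval i t htI)).1
    have htx : (t : ℝ) ≤ x := by exact_mod_cast (mem_Icc.1 htI).2
    have ht0 : (0 : ℝ) ≤ t := Nat.cast_nonneg t
    have h4 : (b1 : ℝ) * t ≥ ((1 + η₀) * B - 1) * t := by
      apply mul_le_mul_of_nonneg_right _ ht0
      linarith
    have h5 : 3 * (B : ℝ) ≤ (η₀ * t) * B := mul_le_mul_of_nonneg_right h2.le hB0.le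
    have h6 : ((1 + η₀) * B - 1) * t = B * t + (η₀ * t) * B - t := by ring
    have h7 : (0 : ℝ) ≤ (((g i).eval (t : ℤ) : ℤ) : ℝ) + (b1 : ℝ) * t := by linarith
    exact_mod_cast h7)
  -- double counting
  set PF := Fintype.piFinset (fun _ : Fin k => Ioc b1 (2 * B)) with hPF
  set PB := Fintype.piFinset (fun _ : Fin k => Ioc B (2 * B)) with hPB
  have hPFsub : PF ⊆ PB := by
    intro b hb
    rw [hPF, Fintype.mem_piFinset] at hb
    rw [hPB, Fintype.mem_piFinset]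
    intro i
    have := mem_Ioc.1 (hb i)
    exact mem_Ioc.2 ⟨by omega, this.2⟩
  set N' : (Fin k → ℕ) → ℝ := fun b => ∑ t ∈ T', ∏ i, pr ((g i).eval (t : ℤ) + b i * t) with hN'
  have hN'eq : ∀ b, N' b = primeT g b T' := fun b => (primeT_eq g b T').symm
  have hN'0 : ∀ b, 0 ≤ N' b := fun b => by rw [hN'eq]; exact Nat.cast_nonneg _
  have hswap : ∑ t ∈ T', ∏ i, nn b1 B (g i) t = ∑ b ∈ PF, N' b := by
    simp only [hN', nn]
    rw [sum_comm]
    apply sum_congr rfl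
    intro t _
    rw [hPF, Finset.prod_univ_sum]
  rw [hswap] at hF
  have hN'le : ∀ b, N' b ≤ primeT g b T := by
    intro b
    rw [hN'eq]
    unfold primeT
    have := card_le_card (filter_subset_filter
      (fun t : ℕ => ∀ i, ((g i).eval (t : ℤ) + b i * t).toNat.Prime) hT'sub)
    exact_mod_cast this
  have hWz := Wz_pos z
  -- sieve average
  have hR : ∑ b ∈ PB, (roughT z g b T : ℝ) / Wz z ^ k ≤ (B + Pz z) ^ k * m := by
    have h1 : ∑ b ∈ PB, (roughT z g b T : ℝ) / Wz z ^ k =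
        ∑ t ∈ T, ∏ i, ((∑ β ∈ Ioc B (2 * B), ro z ((g i).eval (t : ℤ) + β * t)) / Wz z) := by
      rw [← sum_div, sum_congr rfl fun b _ => roughT_eq z g b T, sum_comm, sum_div]
      apply sum_congr rfl
      intro t _
      rw [prod_div_distrib, prod_const, card_univ, Fintype.card_fin, Finset.prod_univ_sum]
    rw [h1, hm, mul_sum]
    apply sum_le_sum
    intro t ht
    have ht0 : 0 < t := by have := (mem_Icc.1 (hT ht)).1; omega
    calc _ ≤ ∏ _i : Fin k, ((B + Pz z) * GG t) := by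
          apply prod_le_prod
          · intro i _
            exact div_nonneg (sum_nonneg fun β _ => ro_nonneg _ _) hWz.le
          · intro i _
            exact ro_sum z B t _ ht0
      _ = (B + Pz z) ^ k * GG t ^ k := by rw [prod_const, card_univ, Fintype.card_fin, mul_pow]
  have hmcard : δ * x ≤ m := by
    refine hTcard.trans ?_
    rw [hm, card_eq_sum_ones]
    push_cast
    apply sum_le_sum
    intro t ht
    exact one_le_pow₀ (one_le_GG (by have := (mem_Icc.1 (hT ht)).1; omega))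
  have hm0 : 0 < m := lt_of_lt_of_le (by positivity) hmcard
  set S := PB.filter (fun b =>
      θ * (roughT z g b T / Wz z ^ k) / L ^ k ≤ primeT g b T ∧
      ηf * x / Real.log B ^ k ≤ primeT g b T) with hSdef
  have hPBcard : (PB.card : ℝ) = B ^ k := by
    rw [hPB, Fintype.card_piFinset]
    simp only [prod_const, card_univ, Fintype.card_fin, Nat.card_Ioc]
    have : 2 * B - B = B := by omega
    rw [this]; push_cast; rfl
  -- the bad b
  have hbad : ∑ b ∈ PF.filter (fun b => b ∉ S), N' b ≤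
      θ₀ * ((B + Pz z) ^ k * m) / L ^ k + B ^ k * (2 ^ k * η₁ * x / L ^ k) := by
    have h1 : ∀ b ∈ PF.filter (fun b => b ∉ S), N' b ≤
        θ₀ * ((roughT z g b T : ℝ) / Wz z ^ k) / L ^ k + 2 ^ k * η₁ * x / L ^ k := by
      intro b hb
      rw [mem_filter] at hb
      have hb1 : b ∈ PB := hPFsub hb.1
      have h2 : ¬ (θ * (roughT z g b T / Wz z ^ k) / L ^ k ≤ primeT g b T ∧
          ηf * x / Real.log B ^ k ≤ primeT g b T) := by
        intro h
        exact hb.2 (by rw [hSdef, mem_filter]; exact ⟨hb1, h⟩)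
      have hR0 : 0 ≤ (roughT z g b T : ℝ) / Wz z ^ k := by positivity
      have h3 : 0 ≤ θ₀ * ((roughT z g b T : ℝ) / Wz z ^ k) / L ^ k := by positivity
      have h4 : 0 ≤ 2 ^ k * η₁ * x / L ^ k := by positivity
      refine (hN'le b).trans ?_
      rw [not_and_or, not_le, not_le] at h2
      rcases h2 with h2 | h2
      · have h5 : θ * ((roughT z g b T : ℝ) / Wz z ^ k) / L ^ k ≤
            θ₀ * ((roughT z g b T : ℝ) / Wz z ^ k) / L ^ k := by gcongr
        linarith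
      · have h5 : ηf * x / Real.log B ^ k ≤ 2 ^ k * η₁ * x / L ^ k := by
          rw [div_le_div_iff₀ (by positivity) (by positivity)]
          have h6 : ηf ≤ η₁ := (min_le_right _ _).trans (min_le_left _ _)
          calc ηf * x * L ^ k ≤ η₁ * x * (2 * Real.log B) ^ k := by gcongr
            _ = _ := by rw [mul_pow]; ring
        linarith
    refine (sum_le_sum h1).trans ?_
    rw [sum_add_distrib]
    have hsub : PF.filter (fun b => b ∉ S) ⊆ PB := (filter_subset _ _).trans hPFsub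
    apply add_le_add
    · calc _ ≤ ∑ b ∈ PB, θ₀ * ((roughT z g b T : ℝ) / Wz z ^ k) / L ^ k := by
            apply sum_le_sum_of_subset_of_nonneg hsub
            intro b _ _; positivity
        _ = θ₀ * (∑ b ∈ PB, (roughT z g b T : ℝ) / Wz z ^ k) / L ^ k := by
            rw [← sum_div, ← mul_sum]
        _ ≤ _ := by gcongr
    · rw [sum_const, nsmul_eq_mul]
      have h2 : ((PF.filter (fun b => b ∉ S)).card : ℝ) ≤ B ^ k := by
        rw [← hPBcard]
        exact_mod_cast card_le_card hsub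
      gcongr
  set Q : ℝ := B / L with hQ
  have hQ0 : 0 < Q := by positivity
  have hPzk : ((B : ℝ) + Pz z) ^ k ≤ (1 + κ / 8) * B ^ k := by
    have h1 : (Pz z : ℝ) ≤ (κ / (8 * 2 ^ k)) * B :=
      hBP.trans (mul_le_mul_of_nonneg_right (min_le_left _ _) hB0.le)
    have h2 : (B : ℝ) + Pz z ≤ (1 + κ / (8 * 2 ^ k)) * B := by linarith
    have h3 : κ / (8 * 2 ^ k) ≤ 1 := by
      rw [div_le_one (by positivity)]
      have : (1 : ℝ) ≤ 2 ^ k := one_le_pow₀ (by norm_num)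
      linarith
    calc ((B : ℝ) + Pz z) ^ k ≤ ((1 + κ / (8 * 2 ^ k)) * B) ^ k := pow_le_pow_left₀ (by positivity) h2 k
      _ = (1 + κ / (8 * 2 ^ k)) ^ k * B ^ k := mul_pow _ _ _
      _ ≤ (1 + 2 ^ k * (κ / (8 * 2 ^ k))) * B ^ k := by
          have := pow_le_lin (show 0 ≤ κ / (8 * 2 ^ k) by positivity) h3 k
          gcongr
      _ = _ := by
          congr 2
          field_simp
  have hbad2 : θ₀ * ((B + Pz z) ^ k * m) / L ^ k + B ^ k * (2 ^ k * η₁ * x / L ^ k) ≤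
      (θ₀ + κ / 4) * (Q ^ k * m) := by
    have eQ : Q ^ k = B ^ k / L ^ k := by rw [hQ, div_pow]
    have h1 : θ₀ * ((B + Pz z) ^ k * m) / L ^ k ≤ (θ₀ + κ / 8) * (Q ^ k * m) := by
      have h2 : θ₀ * ((B + Pz z) ^ k) ≤ (θ₀ + κ / 8) * B ^ k := by
        calc θ₀ * ((B + Pz z) ^ k) ≤ θ₀ * ((1 + κ / 8) * B ^ k) := by gcongr
          _ = (θ₀ + θ₀ * (κ / 8)) * B ^ k := by ring
          _ ≤ (θ₀ + 1 * (κ / 8)) * B ^ k := by gcongr
          _ = _ := by ring
      calc θ₀ * ((B + Pz z) ^ k * m) / L ^ k = (θ₀ * ((B + Pz z) ^ k)) * m / L ^ k := by ring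
        _ ≤ ((θ₀ + κ / 8) * B ^ k) * m / L ^ k := by gcongr
        _ = _ := by rw [eQ]; ring
    have h2 : B ^ k * (2 ^ k * η₁ * x / L ^ k) ≤ κ / 8 * (Q ^ k * m) := by
      rw [eQ, hη₁]
      have h3 : (B : ℝ) ^ k * (2 ^ k * (δ * κ / (8 * 2 ^ k)) * x / L ^ k) =
          κ / 8 * (B ^ k / L ^ k * (δ * x)) := by
        field_simp
      rw [h3]
      gcongr
    linarith
  have hgood : (κ / 2) * (Q ^ k * m) ≤ ∑ b ∈ PF.filter (fun b => b ∈ S), N' b := by
    have h1 := sum_filter_add_sum_filter_not PF (fun b => b ∈ S) N'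
    have h2 : (1 - (k * (2 * d + 7) + 2) * η₀) * (B / L) ^ k * m = (1 - κ / 8) * (Q ^ k * m) := by
      have e : (k * (2 * (d : ℝ) + 7) + 2) * η₀ = κ / 8 := haη
      rw [e]; ring
    rw [h2] at hF
    have h3 : θ₀ = 1 - κ := by rw [hκ]; ring
    have h4 : (1 - κ / 8) * (Q ^ k * m) - (θ₀ + κ / 4) * (Q ^ k * m) = (5 * κ / 8) * (Q ^ k * m) := by
      rw [h3]; ring
    have h5 : (κ / 2) * (Q ^ k * m) ≤ (5 * κ / 8) * (Q ^ k * m) := by
      apply mul_le_mul_of_nonneg_right _ (by positivity)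
      linarith
    linarith
  -- Cauchy-Schwarz
  have hCS : (∑ b ∈ PF.filter (fun b => b ∈ S), N' b) ^ 2 ≤
      (S.card : ℝ) * (C₂ * (x ^ 2 * (B / Real.log B ^ 2) ^ k)) := by
    have h1 := sum_mul_sq_le_sq_mul_sq (PF.filter (fun b => b ∈ S)) (fun _ => (1 : ℝ)) N'
    simp only [one_mul, one_pow, sum_const, nsmul_eq_mul, mul_one] at h1
    refine h1.trans ?_
    apply mul_le_mul
    · have : (PF.filter (fun b => b ∈ S)).card ≤ S.card := by
        apply card_le_card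
        intro b hb
        exact (mem_filter.1 hb).2
      exact_mod_cast this
    · refine le_trans ?_ hS
      exact sum_le_sum_of_subset_of_nonneg (filter_subset _ _) fun b _ _ => by positivity
    · exact sum_nonneg fun b _ => by positivity
    · positivity
  have hfin : (κ / 2 * (Q ^ k * m)) ^ 2 ≤ (S.card : ℝ) * (C₂ * (x ^ 2 * (B / Real.log B ^ 2) ^ k)) := by
    refine le_trans ?_ hCS
    exact pow_le_pow_left₀ (by positivity) hgood 2
  have hQlow : (B / (2 * Real.log B)) ^ k * (δ * x) ≤ Q ^ k * m := by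
    rw [hQ]
    gcongr
  have hfin2 : (κ / 2 * ((B / (2 * Real.log B)) ^ k * (δ * x))) ^ 2 ≤
      (S.card : ℝ) * (C₂ * (x ^ 2 * (B / Real.log B ^ 2) ^ k)) := by
    refine le_trans ?_ hfin
    gcongr
  have e1 : (κ / 2 * ((B / (2 * Real.log B)) ^ k * (δ * x))) ^ 2 =
      (κ ^ 2 * δ ^ 2 / (4 * 4 ^ k) * B ^ k) * (x ^ 2 * (B / Real.log B ^ 2) ^ k) := by
    have e4 : (4 : ℝ) ^ k = (2 ^ k) ^ 2 := by rw [← pow_mul, mul_comm k 2, pow_mul]; norm_num
    rw [div_pow, div_pow, mul_pow 2 (Real.log B) k, e4, ← pow_mul, ← pow_mul, mul_comm 2 k, pow_mul,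
      pow_mul]
    field_simp
    ring
  rw [e1] at hfin2
  have hpos : 0 < (x : ℝ) ^ 2 * (B / Real.log B ^ 2) ^ k := by positivity
  have hfin3 : κ ^ 2 * δ ^ 2 / (4 * 4 ^ k) * B ^ k ≤ S.card * C₂ := by
    have h1 : (S.card : ℝ) * (C₂ * (x ^ 2 * (B / Real.log B ^ 2) ^ k)) =
        (S.card * C₂) * (x ^ 2 * (B / Real.log B ^ 2) ^ k) := by ring
    rw [h1] at hfin2
    exact le_of_mul_le_mul_right hfin2 hpos
  have hfin4 : κ ^ 2 * δ ^ 2 / (4 * 4 ^ k) / C₂ * B ^ k ≤ S.card := by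
    have e2 : κ ^ 2 * δ ^ 2 / (4 * 4 ^ k) / C₂ * B ^ k = (κ ^ 2 * δ ^ 2 / (4 * 4 ^ k) * B ^ k) / C₂ := by
      ring
    rw [e2, div_le_iff₀ hC₂]
    exact hfin3
  have hfin5 : ηf * B ^ k ≤ κ ^ 2 * δ ^ 2 / (4 * 4 ^ k) / C₂ * B ^ k := by
    gcongr
    exact (min_le_right _ _).trans (min_le_right _ _)
  exact hfin5.trans hfin4

end Pool.Agent.W218.LF
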